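import Pool.Agent.Lib_helper19.CL.Defs
import Pool.Agent.Lib_helper56.SGB.F.HI

/-!
# CL, block A: words
-/

set_option autoImplicit false

namespace Pool.Agent.CL

open Finset
open Pool.Agent.SGN (Wd wt UW supS subS unrm uvec nf repR repL)
open Pool.Agent.GLQ (Lat Lz latt sp qq)
open Pool.Agent.SGB (IsB)
open Pool.Agent.BX (OF OFy VA VB cw HC)

noncomputable section

theorem FL_Lz (n : ℕ) : FL (Lz n) := by
  refine ⟨1, ?_, rfl⟩
  rw [Matrix.det_one]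
  exact one_pos

theorem FL_sup {n k : ℕ} (hk : 1 ≤ k) {L M : Lat (n + 1)} (hL : FL L) (h : M ∈ supS k L) :
    FL M := by
  obtain ⟨d, hd⟩ := hL
  obtain ⟨e, he, -⟩ := Pool.Agent.SGB.supS_isB hk hd h
  exact ⟨e, he⟩

theorem FL_sub {n k : ℕ} (hk : 1 ≤ k) {L M : Lat (n + 1)} (hL : FL L) (h : M ∈ subS k L) :
    FL M := by
  obtain ⟨d, hd⟩ := hL
  obtain ⟨e, he, -⟩ := Pool.Agent.SGB.subS_isB hk hd h
  exact ⟨e, he⟩

theorem sup_sub {n k : ℕ} (hk : 1 ≤ k) {L M : Lat (n + 1)} (hL : FL L) (hM : FL M) :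
    L ∈ supS k M ↔ M ∈ subS k L :=
  (Pool.Agent.SGB.mem_supS hk hM L).trans (Pool.Agent.SGB.mem_subS hk hL M).symm

open Classical in
theorem sp_apply {V : Type} (nb : V → Finset V) (f : V →₀ ℕ) (L : V) :
    sp nb f L = ∑ M ∈ f.support, if L ∈ nb M then f M else 0 := by
  unfold sp Finsupp.sum
  rw [Finsupp.finsetSum_apply]
  refine Finset.sum_congr rfl fun M _ => ?_
  rw [Finsupp.finsetSum_apply]
  simp only [Finsupp.single_apply]
  rw [Finset.sum_ite_eq']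

theorem cla_exch {V : Type} (nb : V → Finset V) (f : V →₀ ℕ) (L : V) (S : Finset V)
    (h : ∀ M ∈ f.support, L ∈ nb M ↔ M ∈ S) : sp nb f L = ∑ M ∈ S, f M := by
  classical
  rw [sp_apply, ← Finset.sum_filter]
  refine Finset.sum_subset_zero_on_sdiff ?_ ?_ fun _ _ => rfl
  · intro M hM
    rw [Finset.mem_filter] at hM
    exact (h M hM.1).mp hM.2
  · intro M hM
    rw [Finset.mem_sdiff, Finset.mem_filter] at hM
    by_contra h0
    have hs : M ∈ f.support := Finsupp.mem_support_iff.mpr h0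
    exact hM.2 ⟨hs, (h M hs).mpr hM.1⟩

theorem UW_FL {n : ℕ} {W : Wd} (hW : (∀ a ∈ W.1, 1 ≤ a) ∧ ∀ b ∈ W.2, 1 ≤ b)
    {L : Lat (n + 1)} (h : UW (n + 1) W L ≠ 0) : FL L := by
  obtain ⟨-, d, hd, -⟩ := Pool.Agent.SGB.UW_supp hW h
  exact ⟨d, hd⟩

theorem UW_sup_cons {n : ℕ} (a : ℕ) (ha : 1 ≤ a) (l l' : List ℕ) (hl : ∀ b ∈ l, 1 ≤ b)
    (hl' : ∀ b ∈ l', 1 ≤ b) {L : Lat (n + 1)} (hL : FL L) :
    UW (n + 1) (a :: l, l') L = ∑ M ∈ subS a L, UW (n + 1) (l, l') M := by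
  have e : UW (n + 1) (a :: l, l') = sp (supS a) (UW (n + 1) (l, l')) := rfl
  rw [e]
  refine cla_exch _ _ _ _ fun M hM => ?_
  exact sup_sub ha hL (UW_FL ⟨hl, hl'⟩ (Finsupp.mem_support_iff.mp hM))

theorem UW_sub_cons {n : ℕ} (b : ℕ) (hb : 1 ≤ b) (l : List ℕ) (hl : ∀ b ∈ l, 1 ≤ b)
    {M : Lat (n + 1)} (hM : FL M) :
    UW (n + 1) ([], b :: l) M = ∑ L ∈ supS b M, UW (n + 1) ([], l) L := by
  have e : UW (n + 1) ([], b :: l) = sp (subS b) (UW (n + 1) ([], l)) := rfl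
  rw [e]
  refine cla_exch _ _ _ _ fun L hL => ?_
  have hF : FL L := UW_FL (W := ([], l)) ⟨fun a h => absurd h List.not_mem_nil, hl⟩
    (Finsupp.mem_support_iff.mp hL)
  exact (sup_sub hb hF hM).symm

end

end Pool.Agent.CL
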