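import Pool.Agent.Lib_helper19.CL.Defs
import Pool.Agent.Lib_helper19.CLF.A

/-!
# CL, block B: chains
-/

set_option autoImplicit false

namespace Pool.Agent.CL

open Finset
open Pool.Agent.SGN (Wd wt UW supS subS unrm uvec nf repR repL)
open Pool.Agent.GLQ (Lat Lz latt sp qq)
open Pool.Agent.SGB (IsB)
open Pool.Agent.BX (OF OFy VA VB cw HC)

noncomputable section

theorem ch_supp {n : ℕ} {l : List ℕ} (hl : ∀ a ∈ l, 1 ≤ a) {M L : Lat (n + 1)} (hL : FL L)
    (h : ch l M L ≠ 0) : M ≤ L ∧ M.relIndex L = l.prod ∧ FL M := by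
  induction l generalizing L with
  | nil =>
    have h1 : M = L := by
      by_contra hne
      exact h (by unfold ch; exact if_neg hne)
    subst h1
    exact ⟨le_rfl, by rw [AddSubgroup.relIndex_self, List.prod_nil], hL⟩
  | cons a l ih =>
    have ha : 1 ≤ a := hl a List.mem_cons_self
    have hl' : ∀ b ∈ l, 1 ≤ b := fun b hb => hl b (List.mem_cons_of_mem a hb)
    unfold ch at h
    obtain ⟨L', hL', h0⟩ := Finset.exists_ne_zero_of_sum_ne_zero h
    have hF := FL_sub ha hL hL'
    obtain ⟨h1, h2⟩ := (Pool.Agent.SGB.mem_subS ha hL L').mp hL'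
    obtain ⟨h3, h4, h5⟩ := ih hl' hF h0
    refine ⟨h3.trans h1, ?_, h5⟩
    rw [← AddSubgroup.relIndex_mul_relIndex M L' L h3 h1, h4, h2, List.prod_cons, mul_comm]

theorem ch_snoc {n : ℕ} (l : List ℕ) (hl : ∀ b ∈ l, 1 ≤ b) (a : ℕ) (ha : 1 ≤ a)
    {M L : Lat (n + 1)} (hM : FL M) (hL : FL L) :
    ch (l ++ [a]) M L = ∑ M' ∈ supS a M, ch l M' L := by
  classical
  induction l generalizing L with
  | nil =>
    have e1 : ch ([] ++ [a]) M L = ∑ L' ∈ subS a L, if M = L' then 1 else 0 := by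
      rw [List.nil_append]
      unfold ch
      refine Finset.sum_congr rfl fun L' _ => ?_
      unfold ch
      by_cases hc : M = L'
      · simp only [if_pos hc]
      · simp only [if_neg hc]
    have e2 : ∑ M' ∈ supS a M, ch [] M' L = ∑ M' ∈ supS a M, if M' = L then 1 else 0 := by
      refine Finset.sum_congr rfl fun L' _ => ?_
      unfold ch
      by_cases hc : L' = L
      · simp only [if_pos hc]
      · simp only [if_neg hc]
    rw [e1, e2, Finset.sum_ite_eq, Finset.sum_ite_eq']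
    by_cases hc : L ∈ supS a M
    · rw [if_pos hc, if_pos ((sup_sub ha hL hM).mp hc)]
    · rw [if_neg hc, if_neg fun h => hc ((sup_sub ha hL hM).mpr h)]
  | cons b l ih =>
    have hb : 1 ≤ b := hl b List.mem_cons_self
    have hl' : ∀ c ∈ l, 1 ≤ c := fun c hc => hl c (List.mem_cons_of_mem b hc)
    have e1 : ch (b :: l ++ [a]) M L = ∑ L' ∈ subS b L, ch (l ++ [a]) M L' := rfl
    have e2 : ∀ M', ch (b :: l) M' L = ∑ L' ∈ subS b L, ch l M' L' := fun _ => rfl
    rw [e1, Finset.sum_congr rfl fun L' h' => ih hl' (FL_sub hb hL h'), Finset.sum_comm]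
    exact Finset.sum_congr rfl fun M' _ => (e2 M').symm

theorem UW_sup_ch {n : ℕ} (l : List ℕ) (hl : ∀ b ∈ l, 1 ≤ b) {L : Lat (n + 1)}
    (hL : FL L) : UW (n + 1) (l, []) L = ch l (Lz (n + 1)) L := by
  classical
  induction l generalizing L with
  | nil =>
    have e1 : UW (n + 1) ([], []) = Finsupp.single (Lz (n + 1)) 1 := rfl
    rw [e1, Finsupp.single_apply]
    unfold ch
    by_cases hc : Lz (n + 1) = L
    · simp only [if_pos hc]
    · simp only [if_neg hc]
  | cons a l ih =>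
    have ha : 1 ≤ a := hl a List.mem_cons_self
    have hl' : ∀ c ∈ l, 1 ≤ c := fun c hc => hl c (List.mem_cons_of_mem a hc)
    rw [UW_sup_cons a ha l [] hl' (fun b h => absurd h List.not_mem_nil) hL]
    have e2 : ch (a :: l) (Lz (n + 1)) L = ∑ L' ∈ subS a L, ch l (Lz (n + 1)) L' := rfl
    rw [e2]
    exact Finset.sum_congr rfl fun M hM => ih hl' (FL_sub ha hL hM)

theorem UW_sub_ch {n : ℕ} (l : List ℕ) (hl : ∀ b ∈ l, 1 ≤ b) {M : Lat (n + 1)}
    (hM : FL M) : UW (n + 1) ([], l) M = ch l.reverse M (Lz (n + 1)) := by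
  classical
  induction l generalizing M with
  | nil =>
    have e1 : UW (n + 1) ([], []) = Finsupp.single (Lz (n + 1)) 1 := rfl
    rw [e1, Finsupp.single_apply, List.reverse_nil]
    unfold ch
    by_cases hc : Lz (n + 1) = M
    · rw [if_pos hc, if_pos hc.symm]
    · rw [if_neg hc, if_neg fun h => hc h.symm]
  | cons b l ih =>
    have hb : 1 ≤ b := hl b List.mem_cons_self
    have hl' : ∀ c ∈ l, 1 ≤ c := fun c hc => hl c (List.mem_cons_of_mem b hc)
    rw [UW_sub_cons b hb l hl' hM, List.reverse_cons,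
      ch_snoc l.reverse (fun c hc => hl' c (List.mem_reverse.mp hc)) b hb hM (FL_Lz (n + 1))]
    exact Finset.sum_congr rfl fun L hL => ih hl' (FL_sup hb hM hL)

end

end Pool.Agent.CL
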