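import Pool.Agent.Lib_helper19.CL.Defs

/-!
# CL, block C: ordered factorisations
-/

set_option autoImplicit false

namespace Pool.Agent.CL

open Finset
open Pool.Agent.SGN (Wd wt UW supS subS unrm uvec nf repR repL)
open Pool.Agent.GLQ (Lat Lz latt sp qq)
open Pool.Agent.SGB (IsB)
open Pool.Agent.BX (OF OFy VA VB cw HC)

noncomputable section

theorem clc_len (l : List ℕ) (h : ∀ a ∈ l, 2 ≤ a) : 2 ^ l.length ≤ l.prod := by
  induction l with
  | nil => simp
  | cons a l ih =>
    rw [List.prod_cons, List.length_cons, pow_succ, mul_comm]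
    exact Nat.mul_le_mul (h a List.mem_cons_self) (ih fun b hb => h b (List.mem_cons_of_mem _ hb))

theorem clc_fin {k : ℕ} (hk : 1 ≤ k) :
    {l : List ℕ | (∀ a ∈ l, 2 ≤ a) ∧ l.prod = k}.Finite := by
  have h1 : {l : List (Fin (k + 1)) | l.length < k + 1}.Finite := List.finite_length_lt _ _
  refine (h1.image (List.map Fin.val)).subset ?_
  rintro l ⟨h2, h3⟩
  have h4 : ∀ a ∈ l, a < k + 1 := fun a ha => by
    have h5 : a ∣ k := by
      rw [← h3]
      exact List.dvd_prod ha
    exact Nat.lt_succ_of_le (Nat.le_of_dvd hk h5)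
  have h5 : l.length < k + 1 := by
    have h6 := clc_len l h2
    rw [h3] at h6
    have h7 : l.length < 2 ^ l.length := Nat.lt_two_pow_self
    omega
  refine ⟨l.attach.map fun a => ⟨a.1, h4 a.1 a.2⟩, ?_, ?_⟩
  · show List.length _ < k + 1
    rw [List.length_map, List.length_attach]
    exact h5
  · rw [List.map_map]
    show List.map (fun a : {x // x ∈ l} => a.1) l.attach = l
    exact List.attach_map_subtype_val l

theorem mem_OF {k : ℕ} (hk : 1 ≤ k) (l : List ℕ) :
    l ∈ OF k ↔ (∀ a ∈ l, 2 ≤ a) ∧ l.prod = k := by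
  unfold OF
  rw [dif_pos (clc_fin hk), Set.Finite.mem_toFinset]
  rfl

theorem OF_one : OF 1 = {[]} := by
  ext l
  rw [mem_OF le_rfl, Finset.mem_singleton]
  constructor
  · rintro ⟨h1, h2⟩
    cases l with
    | nil => rfl
    | cons a l =>
      exfalso
      have h3 := h1 a List.mem_cons_self
      rw [List.prod_cons] at h2
      have := Nat.eq_one_of_mul_eq_one_right h2
      omega
  · rintro rfl
    simp

theorem OF_rec (k : ℕ) (hk : 2 ≤ k) (F : List ℕ → ℤ) : ∑ l ∈ OF k, F l =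
    ∑ a ∈ k.divisors.filter (fun a => 2 ≤ a), ∑ l ∈ OF (k / a), F (a :: l) := by
  have hk1 : 1 ≤ k := by omega
  have hq : ∀ a, a ∣ k → 1 ≤ k / a := fun a ha => by
    have := Nat.pos_of_dvd_of_pos ha hk1
    exact Nat.div_pos (Nat.le_of_dvd hk1 ha) this
  rw [Finset.sum_sigma']
  symm
  refine Finset.sum_nbij (fun x => x.1 :: x.2) ?_ ?_ ?_ ?_
  · rintro ⟨a, l⟩ hx
    rw [Finset.mem_sigma, Finset.mem_filter, Nat.mem_divisors] at hx
    obtain ⟨⟨⟨h1, h2⟩, h3⟩, h4⟩ := hx
    rw [mem_OF (hq a h1)] at h4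
    rw [mem_OF hk1]
    refine ⟨fun b hb => ?_, ?_⟩
    · rcases List.mem_cons.1 hb with rfl | hb
      · exact h3
      · exact h4.1 b hb
    · rw [List.prod_cons, h4.2]
      exact Nat.mul_div_cancel' h1
  · rintro ⟨a, l⟩ _ ⟨b, l'⟩ _ h
    simp only [List.cons.injEq] at h
    obtain ⟨rfl, rfl⟩ := h
    rfl
  · intro l hl
    rw [Finset.mem_coe, mem_OF hk1] at hl
    cases l with
    | nil =>
      exfalso
      have := hl.2
      rw [List.prod_nil] at this
      omega
    | cons a l =>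
      have h1 : a ∣ k := by
        rw [← hl.2, List.prod_cons]
        exact dvd_mul_right _ _
      have h2 : 2 ≤ a := hl.1 a List.mem_cons_self
      refine ⟨⟨a, l⟩, ?_, rfl⟩
      rw [Finset.mem_coe, Finset.mem_sigma, Finset.mem_filter, Nat.mem_divisors]
      refine ⟨⟨⟨h1, by omega⟩, h2⟩, ?_⟩
      rw [mem_OF (hq a h1)]
      refine ⟨fun b hb => hl.1 b (List.mem_cons_of_mem _ hb), ?_⟩
      rw [← hl.2, List.prod_cons, Nat.mul_div_cancel_left _ (by omega)]
  · rintro ⟨a, l⟩ _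
    rfl

theorem OF_rev (k : ℕ) (hk : 1 ≤ k) (F : List ℕ → ℤ) :
    ∑ l ∈ OF k, F l.reverse = ∑ l ∈ OF k, F l := by
  have h : ∀ l ∈ OF k, l.reverse ∈ OF k := fun l hl => by
    rw [mem_OF hk] at hl ⊢
    exact ⟨fun a ha => hl.1 a (List.mem_reverse.1 ha), by rw [List.prod_reverse]; exact hl.2⟩
  exact Finset.sum_nbij' List.reverse List.reverse h h (fun l _ => List.reverse_reverse l)
    (fun l _ => List.reverse_reverse l) fun l _ => rfl

end

end Pool.Agent.CL
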