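import Pool.Agent.Lib_helper19.CL.Defs
import Pool.Agent.Lib_helper19.CLF.A
import Pool.Agent.Lib_helper19.CLF.B
import Pool.Agent.Lib_helper19.CLF.C

/-!
# CL, block D: the recursion of the Moebius function
-/

set_option autoImplicit false

namespace Pool.Agent.CL

open Finset
open Pool.Agent.SGN (Wd wt UW supS subS unrm uvec nf repR repL)
open Pool.Agent.GLQ (Lat Lz latt sp qq)
open Pool.Agent.SGB (IsB)
open Pool.Agent.BX (OF OFy VA VB cw HC)

noncomputable section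

theorem rel_pos {n : ℕ} {M L : Lat (n + 1)} (hM : FL M) (hL : FL L) (h : M ≤ L) :
    1 ≤ M.relIndex L := by
  obtain ⟨e, he⟩ := hM
  obtain ⟨d, hd⟩ := hL
  obtain ⟨T, -, h2, -, h4⟩ := Pool.Agent.SGB.IsB_qq hd he h
  rw [h4]
  omega

theorem cld_rel {n : ℕ} {M B L : Lat (n + 1)} (hM : FL M) (hL : FL L) (h1 : M ≤ B)
    (h2 : B ≤ L) : 1 ≤ M.relIndex B ∧ M.relIndex B * B.relIndex L = M.relIndex L := by
  have h3 := AddSubgroup.relIndex_mul_relIndex M B L h1 h2
  have h4 := rel_pos hM hL (h1.trans h2)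
  refine ⟨Nat.one_le_iff_ne_zero.2 fun h5 => ?_, h3⟩
  rw [h5, zero_mul] at h3
  omega

theorem mid_FL {n : ℕ} {M B L : Lat (n + 1)} (hM : FL M) (hL : FL L) (h1 : M ≤ B)
    (h2 : B ≤ L) : FL B := by
  obtain ⟨h3, -⟩ := cld_rel hM hL h1 h2
  exact FL_sup h3 hM ((Pool.Agent.SGB.mem_supS h3 hM B).2 ⟨h1, rfl⟩)

theorem mem_mid {n : ℕ} {M L : Lat (n + 1)} (hM : FL M) (hL : FL L) (h : M ≤ L)
    (B : Lat (n + 1)) : B ∈ mid M L ↔ M ≤ B ∧ B ≤ L := by
  classical
  have hfin : {B : Lat (n + 1) | M ≤ B ∧ B ≤ L}.Finite := by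
    refine (((M.relIndex L).divisors.biUnion fun k => supS k M).finite_toSet).subset ?_
    rintro C ⟨h1, h2⟩
    obtain ⟨h3, h4⟩ := cld_rel hM hL h1 h2
    rw [Finset.mem_coe, Finset.mem_biUnion]
    refine ⟨M.relIndex C, Nat.mem_divisors.2 ⟨⟨_, h4.symm⟩, ?_⟩, ?_⟩
    · have := rel_pos hM hL h
      omega
    · exact (Pool.Agent.SGB.mem_supS h3 hM C).2 ⟨h1, rfl⟩
  unfold mid
  rw [dif_pos hfin, Set.Finite.mem_toFinset]
  rfl

theorem mob_self {n : ℕ} (M : Lat n) : mob M M = 1 := by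
  unfold mob
  rw [AddSubgroup.relIndex_self, OF_one, Finset.sum_singleton, List.length_nil, pow_zero, ch,
    if_pos rfl]
  norm_num

theorem cld_sub {n : ℕ} {M L : Lat (n + 1)} (hM : FL M) (hL : FL L) (h : M ≤ L) (a : ℕ)
    (ha : 1 ≤ a) (hk : a ∣ M.relIndex L) (B : Lat (n + 1)) (hB : B ∈ subS a L) [Decidable (M ≤ B)] :
    ∑ l ∈ OF (M.relIndex L / a), (-1) ^ l.length * (ch l M B : ℤ) =
      if M ≤ B then mob M B else 0 := by
  have hpos := rel_pos hM hL h
  have hB' := (Pool.Agent.SGB.mem_subS ha hL B).1 hB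
  have hBF := FL_sub ha hL hB
  split_ifs with h1
  · have h2 := AddSubgroup.relIndex_mul_relIndex M B L h1 hB'.1
    have h3 : M.relIndex L / a = M.relIndex B := by
      rw [← h2, hB'.2, Nat.mul_div_cancel _ ha]
    rw [h3]
    rfl
  · refine Finset.sum_eq_zero fun l hl => ?_
    have hq : 1 ≤ M.relIndex L / a := Nat.div_pos (Nat.le_of_dvd hpos hk) ha
    have h2 := (mem_OF hq l).1 hl
    have h3 : ch l M B = 0 := by
      by_contra h4
      exact h1 (ch_supp (fun b hb => (by norm_num : 1 ≤ 2).trans (h2.1 b hb)) hBF h4).1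
    rw [h3, Nat.cast_zero, mul_zero]

theorem mob_rec {n : ℕ} {M L : Lat (n + 1)} (hM : FL M) (hL : FL L) (h : M < L) :
    ∑ B ∈ mid M L, mob M B = 0 := by
  classical
  have hpos := rel_pos hM hL h.le
  have hk : 2 ≤ M.relIndex L := by
    rcases Nat.lt_or_ge (M.relIndex L) 2 with h1 | h1
    · have h2 : M.relIndex L = 1 := by omega
      exact absurd (AddSubgroup.relIndex_eq_one.1 h2) h.not_ge
    · exact h1
  have hLm : L ∈ mid M L := (mem_mid hM hL h.le L).2 ⟨h.le, le_rfl⟩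
  have h1 : mob M L = -∑ a ∈ (M.relIndex L).divisors.filter (fun a => 2 ≤ a),
      ∑ B ∈ (subS a L).filter (fun B => M ≤ B), mob M B := by
    unfold mob
    rw [OF_rec _ hk, ← Finset.sum_neg_distrib]
    refine Finset.sum_congr rfl fun a ha => ?_
    rw [Finset.mem_filter, Nat.mem_divisors] at ha
    have ha1 : 1 ≤ a := (by norm_num : 1 ≤ 2).trans ha.2
    have h2 : ∀ l ∈ OF (M.relIndex L / a), (-1 : ℤ) ^ (a :: l).length * (ch (a :: l) M L : ℤ) =
        -∑ B ∈ subS a L, (-1) ^ l.length * (ch l M B : ℤ) := by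
      intro l _
      rw [ch, List.length_cons, pow_succ, Nat.cast_sum, Finset.mul_sum, ← Finset.sum_neg_distrib]
      exact Finset.sum_congr rfl fun B _ => by ring
    rw [Finset.sum_congr rfl h2, Finset.sum_neg_distrib, Finset.sum_comm,
      Finset.sum_congr rfl fun B hB => cld_sub hM hL h.le a ha1 ha.1.1 B hB,
      ← Finset.sum_filter]
    rfl
  rw [← Finset.add_sum_erase _ _ hLm, h1, neg_add_eq_zero]
  rw [← Finset.sum_fiberwise_of_maps_to (s := (mid M L).erase L)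
    (t := (M.relIndex L).divisors.filter (fun a => 2 ≤ a)) (g := fun B => B.relIndex L)]
  · refine Finset.sum_congr rfl fun a ha => ?_
    rw [Finset.mem_filter, Nat.mem_divisors] at ha
    have ha1 : 1 ≤ a := (by norm_num : 1 ≤ 2).trans ha.2
    refine Finset.sum_congr ?_ fun _ _ => rfl
    ext B
    rw [Finset.mem_filter, Finset.mem_filter, Finset.mem_erase, mem_mid hM hL h.le,
      Pool.Agent.SGB.mem_subS ha1 hL]
    constructor
    · rintro ⟨⟨h2, h3⟩, h4⟩
      refine ⟨⟨fun h5 => ?_, h4, h2⟩, h3⟩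
      rw [h5, AddSubgroup.relIndex_self] at h3
      omega
    · rintro ⟨⟨-, h3, h4⟩, h5⟩
      exact ⟨⟨h4, h5⟩, h3⟩
  · intro B hB
    rw [Finset.mem_erase, mem_mid hM hL h.le] at hB
    obtain ⟨h2, h3, h4⟩ := hB
    obtain ⟨h5, h6⟩ := cld_rel hM hL h3 h4
    rw [Finset.mem_filter, Nat.mem_divisors]
    refine ⟨⟨⟨_, (mul_comm _ _).trans h6 |>.symm⟩, by omega⟩, ?_⟩
    have h7 := rel_pos (mid_FL hM hL h3 h4) hL h4
    rcases Nat.lt_or_ge (B.relIndex L) 2 with h8 | h8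
    · have h9 : B.relIndex L = 1 := by omega
      exact absurd (le_antisymm h4 (AddSubgroup.relIndex_eq_one.1 h9)) h2
    · exact h8

end

end Pool.Agent.CL
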