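import Pool.Agent.Lib_helper19.CL.Defs
import Pool.Agent.Lib_helper19.CLF.D

/-!
# CL: block E
-/

set_option autoImplicit false

namespace Pool.Agent.CL

open Finset
open Pool.Agent.SGN (Wd wt UW supS subS unrm uvec nf repR repL)
open Pool.Agent.GLQ (Lat Lz latt sp qq)
open Pool.Agent.SGB (IsB)
open Pool.Agent.BX (OF OFy VA VB cw HC)

noncomputable section

theorem weisner {n : ℕ} {M P L : Lat (n + 1)} (hM : FL M) (hL : FL L) (h1 : M < P)
    (h2 : P ≤ L) [DecidableEq (Lat (n + 1))] :
    ∑ B ∈ (mid M L).filter (fun B => B ⊔ P = L), mob M B = 0 := by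
  have hP : FL P := mid_FL hM hL h1.le h2
  have key : ∀ (k : ℕ) (L : Lat (n + 1)), FL L → P ≤ L → P.relIndex L = k →
      ∑ B ∈ (mid M L).filter (fun B => B ⊔ P = L), mob M B = 0 := by
    intro k
    induction k using Nat.strong_induction_on with
    | _ k ih =>
      intro L hL h2 hk
      have hML : M < L := lt_of_lt_of_le h1 h2
      have h0 := mob_rec hM hL hML
      have hmap : ∀ B ∈ mid M L, B ⊔ P ∈ mid P L := by
        intro B hB
        rw [mem_mid hM hL hML.le] at hB
        rw [mem_mid hP hL h2]
        exact ⟨le_sup_right, sup_le hB.2 h2⟩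
      rw [← Finset.sum_fiberwise_of_maps_to hmap] at h0
      have hLm : L ∈ mid P L := by
        rw [mem_mid hP hL h2]
        exact ⟨h2, le_refl L⟩
      have hz : ∀ C ∈ mid P L, C ≠ L →
          ∑ B ∈ (mid M L).filter (fun B => B ⊔ P = C), mob M B = 0 := by
        intro C hC hCL
        rw [mem_mid hP hL h2] at hC
        have hCF : FL C := mid_FL hP hL hC.1 hC.2
        have hlt : P.relIndex C < k := by
          rw [← hk, ← AddSubgroup.relIndex_mul_relIndex P C L hC.1 hC.2]
          have a1 : 1 ≤ P.relIndex C := rel_pos hP hCF hC.1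
          have a2 : 1 ≤ C.relIndex L := rel_pos hCF hL hC.2
          have a3 : C.relIndex L ≠ 1 := by
            intro h
            rw [AddSubgroup.relIndex_eq_one] at h
            exact hCL (le_antisymm hC.2 h)
          have a4 : 2 ≤ C.relIndex L := by omega
          nlinarith
        have hh := ih (P.relIndex C) hlt C hCF hC.1 rfl
        rw [← hh]
        apply Finset.sum_congr _ (fun _ _ => rfl)
        ext B
        rw [Finset.mem_filter, Finset.mem_filter, mem_mid hM hL hML.le,
          mem_mid hM hCF (h1.le.trans hC.1)]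
        constructor
        · rintro ⟨⟨b1, b2⟩, b3⟩
          refine ⟨⟨b1, ?_⟩, b3⟩
          rw [← b3]
          exact le_sup_left
        · rintro ⟨⟨b1, b2⟩, b3⟩
          exact ⟨⟨b1, b2.trans hC.2⟩, b3⟩
      rw [Finset.sum_eq_single L hz (fun h => absurd hLm h)] at h0
      exact h0
  exact key _ L hL h2 rfl

end

end Pool.Agent.CL
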