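import Pool.Agent.Lib_helper19.CL.Defs

/-!
# CL, block F: finite abelian groups
-/

set_option autoImplicit false

namespace Pool.Agent.CL

open Finset
open Pool.Agent.SGN (Wd wt UW supS subS unrm uvec nf repR repL)
open Pool.Agent.GLQ (Lat Lz latt sp qq)
open Pool.Agent.SGB (IsB)
open Pool.Agent.BX (OF OFy VA VB cw HC)

noncomputable section

theorem gr_cauchy {A : Type} [AddCommGroup A] {M L : AddSubgroup A} (h : M ≤ L)
    (h0 : M.relIndex L ≠ 0) (p : ℕ) (hp : p.Prime) (hd : p ∣ M.relIndex L) :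
    ∃ v ∈ L, v ∉ M ∧ p • v ∈ M := by
  classical
  have hc : Nat.card (L ⧸ M.addSubgroupOf L) = M.relIndex L := rfl
  haveI : Finite (L ⧸ M.addSubgroupOf L) := by
    apply Nat.finite_of_card_ne_zero
    rw [hc]; exact h0
  haveI : Fact p.Prime := ⟨hp⟩
  obtain ⟨x, hx⟩ := exists_prime_addOrderOf_dvd_card' (G := L ⧸ M.addSubgroupOf L) p
    (by rw [hc]; exact hd)
  obtain ⟨v, rfl⟩ := QuotientAddGroup.mk_surjective x
  refine ⟨v, v.2, ?_, ?_⟩
  · intro hv
    have : ((v : L) : L ⧸ M.addSubgroupOf L) = 0 := by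
      rw [QuotientAddGroup.eq_zero_iff, AddSubgroup.mem_addSubgroupOf]
      exact hv
    rw [this, addOrderOf_zero] at hx
    exact hp.one_lt.ne hx
  · have h1 : p • ((v : L) : L ⧸ M.addSubgroupOf L) = 0 := by
      rw [← hx]; exact addOrderOf_nsmul_eq_zero _
    have h2 : ((p • v : L) : L ⧸ M.addSubgroupOf L) = 0 := by
      rw [← h1]; rfl
    rw [QuotientAddGroup.eq_zero_iff, AddSubgroup.mem_addSubgroupOf] at h2
    simpa using h2

theorem gr_rel {A : Type} [AddCommGroup A] {M B L : AddSubgroup A} (h1 : M ≤ B) (v : A) (p : ℕ)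
    (hp : p.Prime) (hv : p • v ∈ M) (h2 : B ⊔ (M ⊔ AddSubgroup.zmultiples v) = L)
    (h3 : B ≠ L) : B.relIndex L = p := by
  classical
  have hBL : B ≤ L := h2 ▸ le_sup_left
  have hvL : v ∈ L := by
    rw [← h2]
    exact (le_sup_right.trans le_sup_right : AddSubgroup.zmultiples v ≤ _)
      (AddSubgroup.mem_zmultiples v)
  have hgen : ∀ w ∈ L, ∃ b ∈ B, ∃ z : ℤ, w = b + z • v := by
    intro w hw
    rw [← h2, ← sup_assoc, sup_eq_left.2 h1] at hw
    obtain ⟨b, hb, c, hc, rfl⟩ := AddSubgroup.mem_sup.1 hw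
    obtain ⟨z, rfl⟩ := AddSubgroup.mem_zmultiples_iff.1 hc
    exact ⟨b, hb, z, rfl⟩
  set x : L ⧸ B.addSubgroupOf L := ((⟨v, hvL⟩ : L) : L ⧸ B.addSubgroupOf L) with hx
  have htop : AddSubgroup.zmultiples x = ⊤ := by
    rw [eq_top_iff]
    intro y _
    obtain ⟨w, rfl⟩ := QuotientAddGroup.mk_surjective y
    obtain ⟨b, hb, z, hz⟩ := hgen w w.2
    rw [AddSubgroup.mem_zmultiples_iff]
    refine ⟨z, ?_⟩
    have : (z • x) = ((z • (⟨v, hvL⟩ : L) : L) : L ⧸ B.addSubgroupOf L) := rfl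
    rw [this, QuotientAddGroup.eq, AddSubgroup.mem_addSubgroupOf]
    have e : ((-(z • (⟨v, hvL⟩ : L)) + w : L) : A) = b := by
      simp only [AddSubgroup.coe_add, AddSubgroup.coe_neg, AddSubgroup.coe_zsmul]
      rw [hz]; abel
    rw [e]; exact hb
  have hcard : B.relIndex L = addOrderOf x := by
    have e1 : B.relIndex L = Nat.card (L ⧸ B.addSubgroupOf L) := rfl
    rw [e1, ← Nat.card_zmultiples, htop]
    exact (Nat.card_congr (AddSubgroup.topEquiv (G := L ⧸ B.addSubgroupOf L)).toEquiv).symm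
  have hdvd : addOrderOf x ∣ p := by
    rw [addOrderOf_dvd_iff_nsmul_eq_zero]
    have : (p • x) = ((p • (⟨v, hvL⟩ : L) : L) : L ⧸ B.addSubgroupOf L) := rfl
    rw [this, QuotientAddGroup.eq_zero_iff, AddSubgroup.mem_addSubgroupOf]
    have e : ((p • (⟨v, hvL⟩ : L) : L) : A) = p • v := by simp
    rw [e]; exact h1 hv
  rw [hcard]
  rcases (Nat.dvd_prime hp).1 hdvd with h | h
  · exfalso
    apply h3
    apply le_antisymm hBL
    rw [← AddSubgroup.relIndex_eq_one, hcard, h]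
  · exact h

theorem gr_mul {A : Type} [AddCommGroup A] {B L : AddSubgroup A} (h : B ≤ L) (p : ℕ)
    (hp : B.relIndex L = p) (w : A) (hw : w ∈ L) : p • w ∈ B := by
  have h1 := AddSubgroup.nsmul_index_mem (B.addSubgroupOf L) (⟨w, hw⟩ : L)
  rw [AddSubgroup.mem_addSubgroupOf] at h1
  have e : (B.addSubgroupOf L).index = p := hp
  rw [e] at h1
  simpa using h1

end

end Pool.Agent.CL
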