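import Pool.Agent.Lib_helper19.CL.Defs
import Pool.Agent.Lib_helper19.CLF.F
import Pool.Agent.Lib_helper56.GLQ.F.L1b

/-!
# CL: block F2
-/

set_option autoImplicit false

namespace Pool.Agent.CL

open Finset
open Pool.Agent.SGN (Wd wt UW supS subS unrm uvec nf repR repL)
open Pool.Agent.GLQ (Lat Lz latt sp qq)
open Pool.Agent.SGB (IsB)
open Pool.Agent.BX (OF OFy VA VB cw HC)

noncomputable section

/-- the index of a lattice in its multiple by the inverse of `p` -/
theorem f2_index {n : ℕ} {M : Lat n} (hM : FL M) (p : ℕ) (hp : 1 ≤ p) :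
    ∃ M' : Lat n, M.relIndex M' = p ^ n ∧ ∀ w : Fin n → ℚ, p • w ∈ M → w ∈ M' := by
  obtain ⟨d, hd, rfl⟩ := hM
  have hp0 : (p : ℚ) ≠ 0 := by
    have : p ≠ 0 := by omega
    exact_mod_cast this
  refine ⟨latt ((p : ℚ)⁻¹ • d), ?_, ?_⟩
  · have hdet : ((p : ℚ)⁻¹ • d).det ≠ 0 := by
      rw [Matrix.det_smul]
      exact mul_ne_zero (pow_ne_zero _ (inv_ne_zero hp0)) hd.ne'
    have hT : ((p : ℤ) • (1 : Matrix (Fin n) (Fin n) ℤ)).det = (p : ℤ) ^ n := by
      rw [Matrix.det_smul, Matrix.det_one, mul_one, Fintype.card_fin]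
    have hT0 : ((p : ℤ) • (1 : Matrix (Fin n) (Fin n) ℤ)).det ≠ 0 := by
      rw [hT]
      apply pow_ne_zero
      exact_mod_cast (by omega : p ≠ 0)
    have h := GLQ.index_det_pr ((p : ℤ) • (1 : Matrix (Fin n) (Fin n) ℤ)) hT0
      ((p : ℚ)⁻¹ • d) hdet
    have hq : qq ((p : ℤ) • (1 : Matrix (Fin n) (Fin n) ℤ)) = (p : ℚ) • (1 : Matrix _ _ ℚ) := by
      ext i j
      simp only [GLQ.qq, Matrix.map_apply, Matrix.smul_apply, Matrix.one_apply]
      split_ifs <;> simp
    rw [hq, Matrix.smul_mul, Matrix.one_mul, smul_smul, mul_inv_cancel₀ hp0, one_smul, hT] at h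
    rw [h, Int.natAbs_pow, Int.natAbs_natCast]
  · rintro w ⟨x, hx⟩
    refine ⟨x, ?_⟩
    rw [Matrix.vecMul_smul, ← hx]
    rw [← Nat.cast_smul_eq_nsmul ℚ p w, smul_smul, inv_mul_cancel₀ hp0, one_smul]

theorem gr_cauchy2 {n : ℕ} {M L : Lat n} (hM : FL M) (h : M ≤ L) (h0 : M.relIndex L ≠ 0)
    (p : ℕ) (hp : p.Prime) (hd : p ^ (n + 1) ∣ M.relIndex L) :
    ∃ w ∈ L, p • w ∉ M ∧ p • p • w ∈ M := by
  by_contra hcon
  push Not at hcon
  have hcon' : ∀ w ∈ L, p • p • w ∈ M → p • w ∈ M := by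
    intro w hw h2
    by_contra h3
    exact hcon w hw h3 h2
  -- a chain of subgroups
  have chain : ∀ j, j ≤ n + 1 → ∃ K : Lat n, M ≤ K ∧ K ≤ L ∧ M.relIndex K = p ^ j ∧
      ∀ w ∈ K, p • w ∈ M := by
    intro j
    induction j with
    | zero =>
      intro _
      refine ⟨M, le_refl M, h, ?_, fun w hw => M.nsmul_mem hw p⟩
      rw [AddSubgroup.relIndex_self, pow_zero]
    | succ j ih =>
      intro hj
      obtain ⟨K, k1, k2, k3, k4⟩ := ih (by omega)
      have hmul := AddSubgroup.relIndex_mul_relIndex M K L k1 k2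
      have hK0 : K.relIndex L ≠ 0 := by
        intro hz
        rw [hz, mul_zero] at hmul
        exact h0 hmul.symm
      have hpd : p ∣ K.relIndex L := by
        rw [← hmul, k3] at hd
        have h5 : p ^ j * p ∣ p ^ j * K.relIndex L :=
          (by rw [← pow_succ]; exact (pow_dvd_pow p hj).trans hd)
        exact Nat.dvd_of_mul_dvd_mul_left (pow_pos hp.pos j) h5
      obtain ⟨v, v1, v2, v3⟩ := gr_cauchy k2 hK0 p hp hpd
      refine ⟨K ⊔ AddSubgroup.zmultiples v, k1.trans le_sup_left,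
        sup_le k2 ((AddSubgroup.zmultiples_le_of_mem v1)), ?_, ?_⟩
      · have hle : K ≤ K ⊔ AddSubgroup.zmultiples v := le_sup_left
        rw [← AddSubgroup.relIndex_mul_relIndex M K _ k1 hle, k3, pow_succ]
        congr 1
        apply gr_rel (le_refl K) v p hp v3
        · rw [← sup_assoc, sup_idem]
        · intro he
          apply v2
          rw [he]
          exact (le_sup_right : AddSubgroup.zmultiples v ≤ K ⊔ AddSubgroup.zmultiples v)
            (AddSubgroup.mem_zmultiples v)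
      · intro w hw
        rw [AddSubgroup.mem_sup] at hw
        obtain ⟨a, ha, b, hb, rfl⟩ := hw
        obtain ⟨z, rfl⟩ := AddSubgroup.mem_zmultiples_iff.1 hb
        have hv : p • v ∈ M := hcon' v v1 (k4 _ v3)
        rw [smul_add]
        refine M.add_mem (k4 a ha) ?_
        have : p • z • v = z • p • v := smul_comm _ _ _
        rw [this]
        exact M.zsmul_mem hv z
  obtain ⟨K, k1, k2, k3, k4⟩ := chain (n + 1) le_rfl
  obtain ⟨M', m1, m2⟩ := f2_index hM p hp.one_lt.le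
  have hKM : K ≤ M' := fun w hw => m2 w (k4 w hw)
  have hmul := AddSubgroup.relIndex_mul_relIndex M K M' k1 hKM
  rw [k3, m1] at hmul
  have hlt : p ^ n < p ^ (n + 1) := Nat.pow_lt_pow_right hp.one_lt (by omega)
  have hne : K.relIndex M' ≠ 0 := by
    intro hz
    rw [hz, mul_zero] at hmul
    exact (pow_pos hp.pos n).ne hmul
  have : 1 ≤ K.relIndex M' := Nat.one_le_iff_ne_zero.2 hne
  nlinarith

end

end Pool.Agent.CL
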