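import Pool.Agent.Lib_helper19.CL.Defs
import Pool.Agent.Lib_helper19.CLF.B
import Pool.Agent.Lib_helper19.CLF.C
import Pool.Agent.Lib_helper19.CLF.D
import Pool.Agent.Lib_helper19.CLF.E
import Pool.Agent.Lib_helper19.CLF.F
import Pool.Agent.Lib_helper19.CLF.F2

/-!
# Block G: bounds for the Moebius function
-/

set_option autoImplicit false

namespace Pool.Agent.CL

open Finset
open Pool.Agent.SGN (Wd wt UW supS subS unrm uvec nf repR repL)
open Pool.Agent.GLQ (Lat Lz latt sp qq)
open Pool.Agent.SGB (IsB)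
open Pool.Agent.BX (OF OFy VA VB cw HC)

noncomputable section

open Classical in
private lemma g_weis {n : ℕ} {M P L : Lat (n + 1)} (hM : FL M) (hL : FL L) (h1 : M < P)
    (h2 : P ≤ L) (hML : M ≤ L) :
    mob M L = -∑ B ∈ ((mid M L).filter (fun B => B ⊔ P = L)).erase L, mob M B := by
  have hw := weisner hM hL h1 h2
  have hmem : L ∈ (mid M L).filter (fun B => B ⊔ P = L) := by
    rw [Finset.mem_filter]
    exact ⟨(mem_mid hM hL hML L).mpr ⟨hML, le_rfl⟩, sup_eq_left.mpr h2⟩
  rw [← Finset.add_sum_erase _ _ hmem] at hw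
  linarith

private lemma g_lt {n : ℕ} {M L : Lat (n + 1)} {v : Fin (n + 1) → ℚ} (hvM : v ∉ M) :
    M < M ⊔ AddSubgroup.zmultiples v := by
  refine lt_of_le_of_ne le_sup_left ?_
  intro h
  apply hvM
  rw [h]
  exact (le_sup_right : AddSubgroup.zmultiples v ≤ _) (AddSubgroup.mem_zmultiples v)

private lemma g_main {n : ℕ} {M : Lat (n + 1)} (hM : FL M) : ∀ k : ℕ, ∀ L : Lat (n + 1), FL L →
    M ≤ L → M.relIndex L = k → |mob M L| ≤ (ch k.primeFactorsList M L : ℤ) := by
  classical
  intro k
  induction k using Nat.strong_induction_on with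
  | _ k ih =>
    intro L hL hML hk
    have hk1 : 1 ≤ k := by rw [← hk]; exact rel_pos hM hL hML
    rcases Nat.eq_or_lt_of_le hk1 with h1 | h1
    · have hLM : L ≤ M := by
        rw [← AddSubgroup.relIndex_eq_one, hk]; exact h1.symm
      have hEq : M = L := le_antisymm hML hLM
      subst hEq
      rw [mob_self, ← h1]
      simp [ch]
    · have hk0 : M.relIndex L ≠ 0 := by omega
      set p := k.minFac with hp
      have hpp : p.Prime := Nat.minFac_prime (by omega)
      have hpk : p ∣ k := Nat.minFac_dvd k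
      obtain ⟨v, hvL, hvM, hpv⟩ := gr_cauchy hML hk0 p hpp (by rw [hk]; exact hpk)
      set P : Lat (n + 1) := M ⊔ AddSubgroup.zmultiples v with hP
      have hPL : P ≤ L := by
        rw [hP]; apply sup_le hML
        rw [AddSubgroup.zmultiples_le]; exact hvL
      have hMP : M < P := g_lt (L := L) hvM
      have hwe := g_weis hM hL hMP hPL hML
      have hB : ∀ B ∈ ((mid M L).filter (fun B => B ⊔ P = L)).erase L,
          FL B ∧ M ≤ B ∧ B ≤ L ∧ B.relIndex L = p ∧ M.relIndex B = k / p := by
        intro B hB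
        rw [Finset.mem_erase, Finset.mem_filter, mem_mid hM hL hML] at hB
        obtain ⟨hne, ⟨hMB, hBL⟩, hsup⟩ := hB
        have hrel : B.relIndex L = p := gr_rel hMB v p hpp hpv hsup hne
        refine ⟨mid_FL hM hL hMB hBL, hMB, hBL, hrel, ?_⟩
        have hmul := AddSubgroup.relIndex_mul_relIndex M B L hMB hBL
        rw [hrel, hk] at hmul
        rw [← hmul, Nat.mul_div_cancel _ hpp.pos]
      rw [hwe, abs_neg]
      have hlt : k / p < k := Nat.div_lt_self (by omega) hpp.one_lt
      have hpf : k.primeFactorsList = p :: (k / p).primeFactorsList := by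
        obtain ⟨m, rfl⟩ : ∃ m, k = m + 2 := ⟨k - 2, by omega⟩
        rw [Nat.primeFactorsList]
      calc |∑ B ∈ ((mid M L).filter (fun B => B ⊔ P = L)).erase L, mob M B|
          ≤ ∑ B ∈ ((mid M L).filter (fun B => B ⊔ P = L)).erase L, |mob M B| :=
            Finset.abs_sum_le_sum_abs _ _
        _ ≤ ∑ B ∈ ((mid M L).filter (fun B => B ⊔ P = L)).erase L,
              (ch (k / p).primeFactorsList M B : ℤ) := by
            apply Finset.sum_le_sum
            intro B hB'
            obtain ⟨b1, b2, b3, b4, b5⟩ := hB B hB'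
            exact ih (k / p) hlt B b1 b2 b5
        _ ≤ ∑ B ∈ subS p L, (ch (k / p).primeFactorsList M B : ℤ) := by
            apply Finset.sum_le_sum_of_subset_of_nonneg
            · intro B hB'
              obtain ⟨b1, b2, b3, b4, b5⟩ := hB B hB'
              exact (Pool.Agent.SGB.mem_subS hpp.one_le hL B).mpr ⟨b3, b4⟩
            · intro B _ _; positivity
        _ = (ch k.primeFactorsList M L : ℤ) := by
            rw [hpf]
            simp [ch]

theorem mob_le {n : ℕ} {M L : Lat (n + 1)} (hM : FL M) (hL : FL L) (h : M ≤ L) :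
    |mob M L| ≤ (ch (M.relIndex L).primeFactorsList M L : ℤ) :=
  g_main hM _ L hL h rfl

theorem mob_zero {n : ℕ} {M L : Lat (n + 1)} (hM : FL M) (hL : FL L) (h : M ≤ L)
    (hF : ¬ Fr (n + 1) (M.relIndex L)) : mob M L = 0 := by
  classical
  unfold Fr at hF
  push Not at hF
  obtain ⟨p, hp, hd⟩ := hF
  have h0 : M.relIndex L ≠ 0 := by have := rel_pos hM hL h; omega
  obtain ⟨w, hwL, hpw, hppw⟩ := gr_cauchy2 hM h h0 p hp hd
  set v := p • w with hv
  have hvL : v ∈ L := by rw [hv]; exact AddSubgroup.nsmul_mem L hwL p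
  set P : Lat (n + 1) := M ⊔ AddSubgroup.zmultiples v with hP
  have hPL : P ≤ L := by
    rw [hP]; apply sup_le h
    rw [AddSubgroup.zmultiples_le]; exact hvL
  have hMP : M < P := g_lt (L := L) hpw
  rw [g_weis hM hL hMP hPL h]
  rw [neg_eq_zero]
  apply Finset.sum_eq_zero
  intro B hB
  exfalso
  rw [Finset.mem_erase, Finset.mem_filter, mem_mid hM hL h] at hB
  obtain ⟨hne, ⟨hMB, hBL⟩, hsup⟩ := hB
  have hrel : B.relIndex L = p := gr_rel hMB v p hp hppw hsup hne
  have hvB : v ∈ B := gr_mul hBL p hrel w hwL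
  have hPB : P ≤ B := by
    rw [hP]; apply sup_le hMB
    rw [AddSubgroup.zmultiples_le]; exact hvB
  apply hne
  rw [← hsup]
  exact (sup_eq_left.mpr hPB).symm

open Classical in
theorem sig_le {n : ℕ} (k : ℕ) (hk : 1 ≤ k) {M L : Lat (n + 1)} (hM : FL M) (hL : FL L) :
    |∑ l ∈ OF k, (-1) ^ l.length * (ch l M L : ℤ)| ≤
      if Fr (n + 1) k then (ch k.primeFactorsList M L : ℤ) else 0 := by
  by_cases hc : M ≤ L ∧ M.relIndex L = k
  · obtain ⟨h, hrk⟩ := hc
    have hmob : ∑ l ∈ OF k, (-1) ^ l.length * (ch l M L : ℤ) = mob M L := by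
      unfold mob; rw [hrk]
    rw [hmob]
    split_ifs with hF
    · have := mob_le hM hL h
      rwa [hrk] at this
    · rw [mob_zero hM hL h (by rwa [hrk]), abs_zero]
  · have hz : ∑ l ∈ OF k, (-1) ^ l.length * (ch l M L : ℤ) = 0 := by
      apply Finset.sum_eq_zero
      intro l hl
      rw [mem_OF hk] at hl
      have : ch l M L = 0 := by
        by_contra hne
        obtain ⟨c1, c2, _⟩ := ch_supp (fun a ha => le_trans (by norm_num) (hl.1 a ha)) hL hne
        exact hc ⟨c1, by rw [c2, hl.2]⟩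
      rw [this]; simp
    rw [hz, abs_zero]
    split_ifs <;> positivity


end

end Pool.Agent.CL
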