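import Pool.Agent.Lib_helper19.CL.Defs
import Pool.Agent.Lib_helper19.CLF.A
import Pool.Agent.Lib_helper19.CLF.B
import Pool.Agent.Lib_helper19.CLF.C
import Pool.Agent.Lib_helper19.CLF.G

/-!
# CL, block H: domination of the words
-/

set_option autoImplicit false

namespace Pool.Agent.CL

open Finset
open Pool.Agent.SGN (Wd wt UW supS subS unrm uvec nf repR repL)
open Pool.Agent.GLQ (Lat Lz latt sp qq)
open Pool.Agent.SGB (IsB)
open Pool.Agent.BX (OF OFy VA VB cw HC)

noncomputable section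

theorem clh_not_FL {n : ℕ} {W : Wd} (hW : (∀ a ∈ W.1, 1 ≤ a) ∧ ∀ b ∈ W.2, 1 ≤ b)
    {L : Lat (n + 1)} (h : ¬ FL L) : UW (n + 1) W L = 0 := by
  by_contra h0
  exact h (UW_FL hW h0)

theorem clh_OF_one_le {k : ℕ} (hk : 1 ≤ k) {l : List ℕ} (hl : l ∈ OF k) : ∀ a ∈ l, 1 ≤ a := by
  intro a ha
  have := ((mem_OF hk l).1 hl).1 a ha
  omega

theorem clh_pf (k : ℕ) : ∀ a ∈ k.primeFactorsList, 1 ≤ a := fun _ ha =>
  (Nat.prime_of_mem_primeFactorsList ha).one_lt.le

open Classical in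
theorem dom_A {n : ℕ} (m k : ℕ) (hm : 1 ≤ m) (hk : 1 ≤ k) (L : Lat (n + 1)) :
    |∑ l ∈ OF k, (-1) ^ l.length * (UW (n + 1) (m :: l, []) L : ℤ)| ≤
      if Fr (n + 1) k then (UW (n + 1) (m :: k.primeFactorsList, []) L : ℤ) else 0 := by
  by_cases hL : FL L
  · have e1 : ∀ l ∈ OF k, (-1 : ℤ) ^ l.length * (UW (n + 1) (m :: l, []) L : ℤ) =
        ∑ M ∈ subS m L, (-1) ^ l.length * (ch l (Lz (n + 1)) M : ℤ) := by
      intro l hl
      have h1 := clh_OF_one_le hk hl
      rw [UW_sup_cons m hm l [] h1 (by simp) hL, Nat.cast_sum, Finset.mul_sum]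
      refine Finset.sum_congr rfl fun M hM => ?_
      rw [UW_sup_ch l h1 (FL_sub hm hL hM)]
    rw [Finset.sum_congr rfl e1, Finset.sum_comm]
    have e2 : (UW (n + 1) (m :: k.primeFactorsList, []) L : ℤ) =
        ∑ M ∈ subS m L, (ch k.primeFactorsList (Lz (n + 1)) M : ℤ) := by
      rw [UW_sup_cons m hm _ [] (clh_pf k) (by simp) hL, Nat.cast_sum]
      refine Finset.sum_congr rfl fun M hM => ?_
      rw [UW_sup_ch _ (clh_pf k) (FL_sub hm hL hM)]
    refine (Finset.abs_sum_le_sum_abs _ _).trans ?_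
    refine (Finset.sum_le_sum fun M hM =>
      sig_le k hk (FL_Lz (n + 1)) (FL_sub hm hL hM)).trans ?_
    by_cases hF : Fr (n + 1) k
    · simp only [if_pos hF]
      rw [e2]
    · simp only [if_neg hF, Finset.sum_const_zero, le_refl]
  · have e1 : ∀ l ∈ OF k, (-1 : ℤ) ^ l.length * (UW (n + 1) (m :: l, []) L : ℤ) = 0 := by
      intro l hl
      rw [clh_not_FL ⟨?_, by simp⟩ hL]
      · simp
      · intro a ha
        rcases List.mem_cons.1 ha with rfl | ha
        · exact hm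
        · exact clh_OF_one_le hk hl a ha
    rw [Finset.sum_eq_zero e1, abs_zero]
    split_ifs
    · exact Int.natCast_nonneg _
    · exact le_refl _

open Classical in
theorem dom_B {n : ℕ} (m k : ℕ) (hm : 1 ≤ m) (hk : 1 ≤ k) (L : Lat (n + 1)) :
    |∑ l ∈ OF k, (-1) ^ l.length * (UW (n + 1) ([m], l) L : ℤ)| ≤
      if Fr (n + 1) k then (UW (n + 1) ([m], k.primeFactorsList.reverse) L : ℤ) else 0 := by
  by_cases hL : FL L
  · have hrev : ∀ a ∈ k.primeFactorsList.reverse, 1 ≤ a := fun a ha =>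
      clh_pf k a (List.mem_reverse.1 ha)
    have e1 : ∀ l ∈ OF k, (-1 : ℤ) ^ l.length * (UW (n + 1) ([m], l) L : ℤ) =
        ∑ M ∈ subS m L, (-1) ^ l.reverse.length * (ch l.reverse M (Lz (n + 1)) : ℤ) := by
      intro l hl
      have h1 := clh_OF_one_le hk hl
      rw [UW_sup_cons m hm [] l (by simp) h1 hL, Nat.cast_sum, Finset.mul_sum]
      refine Finset.sum_congr rfl fun M hM => ?_
      rw [UW_sub_ch l h1 (FL_sub hm hL hM), List.length_reverse]
    rw [Finset.sum_congr rfl e1, Finset.sum_comm]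
    have e3 : ∀ M ∈ subS m L,
        ∑ l ∈ OF k, (-1 : ℤ) ^ l.reverse.length * (ch l.reverse M (Lz (n + 1)) : ℤ) =
        ∑ l ∈ OF k, (-1 : ℤ) ^ l.length * (ch l M (Lz (n + 1)) : ℤ) := fun M _ =>
      OF_rev k hk fun l => (-1 : ℤ) ^ l.length * (ch l M (Lz (n + 1)) : ℤ)
    rw [Finset.sum_congr rfl e3]
    have e2 : (UW (n + 1) ([m], k.primeFactorsList.reverse) L : ℤ) =
        ∑ M ∈ subS m L, (ch k.primeFactorsList M (Lz (n + 1)) : ℤ) := by
      rw [UW_sup_cons m hm [] _ (by simp) hrev hL, Nat.cast_sum]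
      refine Finset.sum_congr rfl fun M hM => ?_
      rw [UW_sub_ch _ hrev (FL_sub hm hL hM), List.reverse_reverse]
    refine (Finset.abs_sum_le_sum_abs _ _).trans ?_
    refine (Finset.sum_le_sum fun M hM =>
      sig_le k hk (FL_sub hm hL hM) (FL_Lz (n + 1))).trans ?_
    by_cases hF : Fr (n + 1) k
    · simp only [if_pos hF]
      rw [e2]
    · simp only [if_neg hF, Finset.sum_const_zero, le_refl]
  · have e1 : ∀ l ∈ OF k, (-1 : ℤ) ^ l.length * (UW (n + 1) ([m], l) L : ℤ) = 0 := by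
      intro l hl
      rw [clh_not_FL ⟨?_, ?_⟩ hL]
      · simp
      · intro a ha
        rcases List.mem_singleton.1 ha with rfl
        exact hm
      · exact fun b hb => clh_OF_one_le hk hl b hb
    rw [Finset.sum_eq_zero e1, abs_zero]
    split_ifs
    · exact Int.natCast_nonneg _
    · exact le_refl _

end

end Pool.Agent.CL
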