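import Pool.Agent.Lib_helper19.CL.Defs
import Pool.Agent.Lib_helper56.GLQ.F.L1b

/-! Block I2: uniqueness of triangular bases, products with Hermite forms -/

set_option autoImplicit false

namespace Pool.Agent.CL

open Finset
open Pool.Agent.SGN (Wd wt UW supS subS unrm uvec nf repR repL)
open Pool.Agent.GLQ (Lat Lz latt sp qq)
open Pool.Agent.SGB (IsB)
open Pool.Agent.BX (OF OFy VA VB cw HC)

noncomputable section

theorem cli2_tri {n : ℕ} {d e : Matrix (Fin n) (Fin n) ℚ} {T : Matrix (Fin n) (Fin n) ℤ}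
    (hd : UT d) (he : ∀ i j, j < i → e i j = 0) (h : e = qq T * d) :
    (∀ i j, j < i → T i j = 0) ∧ ∀ i, e i i = (T i i : ℚ) * d i i := by
  have hT : ∀ i : Fin n, ∀ m : ℕ, ∀ j : Fin n, (j : ℕ) = m → j < i → T i j = 0 := by
    intro i m
    induction m using Nat.strong_induction_on with
    | _ m ih =>
      intro j hjm hji
      have h1 : e i j = (T i j : ℚ) * d j j := by
        rw [h, Matrix.mul_apply, Finset.sum_eq_single j]
        · rfl
        · intro k _ hkj
          rcases lt_or_gt_of_ne hkj with hk | hk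
          · have h2 : T i k = 0 := ih (k : ℕ) (hjm ▸ hk) k rfl (hk.trans hji)
            change ((T i k : ℤ) : ℚ) * d k j = 0
            rw [h2, Int.cast_zero, zero_mul]
          · rw [hd.1 k j hk, mul_zero]
        · intro hj
          exact absurd (Finset.mem_univ j) hj
      rw [he i j hji] at h1
      have h3 : (T i j : ℚ) = 0 := by
        rcases mul_eq_zero.1 h1.symm with h4 | h4
        · exact h4
        · exact absurd h4 (hd.2 j).ne'
      exact_mod_cast h3
  refine ⟨fun i j hji => hT i (j : ℕ) j rfl hji, fun i => ?_⟩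
  rw [h, Matrix.mul_apply, Finset.sum_eq_single i]
  · rfl
  · intro k _ hki
    rcases lt_or_gt_of_ne hki with hk | hk
    · change ((T i k : ℤ) : ℚ) * d k i = 0
      rw [hT i (k : ℕ) k rfl hk, Int.cast_zero, zero_mul]
    · rw [hd.1 k i hk, mul_zero]
  · intro hi
    exact absurd (Finset.mem_univ i) hi

theorem UT_uniq {n : ℕ} {d e : Matrix (Fin n) (Fin n) ℚ} (hd : UT d) (he : UT e)
    (h : latt d = latt e) (i : Fin n) : d i i = e i i := by
  obtain ⟨T, hT⟩ := GLQ.latt_le_pr (δ := d) (δ' := e) h.ge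
  obtain ⟨S, hS⟩ := GLQ.latt_le_pr (δ := e) (δ' := d) h.le
  have h1 := (cli2_tri hd he.1 hT).2 i
  have h2 := (cli2_tri he hd.1 hS).2 i
  have hd0 := hd.2 i
  have he0 := he.2 i
  have hT0 : (0 : ℚ) < T i i := by
    by_contra hc
    push Not at hc
    have := mul_nonpos_of_nonpos_of_nonneg hc hd0.le
    linarith
  have hS0 : (0 : ℚ) < S i i := by
    by_contra hc
    push Not at hc
    have := mul_nonpos_of_nonpos_of_nonneg hc he0.le
    linarith
  have hT1 : (1 : ℚ) ≤ T i i := by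
    have : 0 < T i i := by exact_mod_cast hT0
    exact_mod_cast this
  have hS1 : (1 : ℚ) ≤ S i i := by
    have : 0 < S i i := by exact_mod_cast hS0
    exact_mod_cast this
  have h3 : d i i ≤ e i i := by
    rw [h1]
    nlinarith
  have h4 : e i i ≤ d i i := by
    rw [h2]
    nlinarith
  exact le_antisymm h3 h4

theorem cli2_mul {n : ℕ} {A D : Matrix (Fin n) (Fin n) ℚ} (hA : ∀ i j, j < i → A i j = 0)
    (hD : ∀ i j, j < i → D i j = 0) :
    (∀ i j, j < i → (A * D) i j = 0) ∧ ∀ i, (A * D) i i = A i i * D i i := by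
  constructor
  · intro i j hji
    rw [Matrix.mul_apply]
    refine Finset.sum_eq_zero fun k _ => ?_
    rcases lt_or_ge k i with hk | hk
    · rw [hA i k hk, zero_mul]
    · rw [hD k j (hji.trans_le hk), mul_zero]
  · intro i
    rw [Matrix.mul_apply, Finset.sum_eq_single i]
    · intro k _ hki
      rcases lt_or_gt_of_ne hki with hk | hk
      · rw [hA i k hk, zero_mul]
      · rw [hD k i hk, mul_zero]
    · intro hi
      exact absurd (Finset.mem_univ i) hi

theorem cli2_pos {n k : ℕ} (hk : 1 ≤ k) {a : Fin n → Fin n → ℤ}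
    (h0 : ∀ i j, 0 ≤ a i j) (hp : ∏ i, a i i = k) (i : Fin n) : (0 : ℚ) < a i i := by
  have h1 : a i i ≠ 0 := by
    intro h
    have h2 : ∏ i, a i i = 0 := Finset.prod_eq_zero (Finset.mem_univ i) h
    rw [h2] at hp
    have : (k : ℤ) = 0 := hp.symm
    omega
  have h2 : 0 < a i i := lt_of_le_of_ne (h0 i i) h1.symm
  exact_mod_cast h2

theorem UT_repL {n k : ℕ} (hk : 1 ≤ k) {d : Matrix (Fin n) (Fin n) ℚ} (hd : UT d)
    {a : Fin n → Fin n → ℤ} (ha : a ∈ repL n k) :
    UT (qq (Matrix.of a) * d) ∧ ∀ i, (qq (Matrix.of a) * d) i i = a i i * d i i := by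
  unfold repL at ha
  rw [Finset.mem_filter] at ha
  obtain ⟨ha1, ha2, _, ha4⟩ := ha
  have h0 : ∀ i j, 0 ≤ a i j := by
    intro i j
    exact (Finset.mem_Icc.1 (Fintype.mem_piFinset.1 (Fintype.mem_piFinset.1 ha1 i) j)).1
  have hA : ∀ i j, j < i → (qq (Matrix.of a)) i j = 0 := by
    intro i j hji
    change ((a i j : ℤ) : ℚ) = 0
    rw [ha2 i j hji, Int.cast_zero]
  obtain ⟨h1, h2⟩ := cli2_mul hA hd.1
  have h3 : ∀ i, (qq (Matrix.of a) * d) i i = (a i i : ℚ) * d i i := h2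
  refine ⟨⟨h1, fun i => ?_⟩, h3⟩
  rw [h3 i]
  exact mul_pos (cli2_pos hk h0 ha4 i) (hd.2 i)

theorem UT_repR {n k : ℕ} (hk : 1 ≤ k) {d : Matrix (Fin n) (Fin n) ℚ} (hd : UT d)
    {a : Fin n → Fin n → ℤ} (ha : a ∈ repR n k) :
    UT ((qq (Matrix.of a))⁻¹ * d) ∧
      ∀ i, ((qq (Matrix.of a))⁻¹ * d) i i = (a i i : ℚ)⁻¹ * d i i := by
  unfold repR at ha
  rw [Finset.mem_filter] at ha
  obtain ⟨ha1, ha2, _, ha4⟩ := ha
  have h0 : ∀ i j, 0 ≤ a i j := by
    intro i j
    exact (Finset.mem_Icc.1 (Fintype.mem_piFinset.1 (Fintype.mem_piFinset.1 ha1 i) j)).1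
  have hA : ∀ i j, j < i → (qq (Matrix.of a)) i j = 0 := by
    intro i j hji
    change ((a i j : ℤ) : ℚ) = 0
    rw [ha2 i j hji, Int.cast_zero]
  have hBT : (qq (Matrix.of a)).BlockTriangular id := fun i j hij => hA i j hij
  have hpos := cli2_pos hk h0 ha4
  have hdet : (qq (Matrix.of a)).det ≠ 0 := by
    rw [Matrix.det_of_upperTriangular hBT]
    refine Finset.prod_ne_zero_iff.2 fun i _ => ?_
    exact (hpos i).ne'
  have hu : IsUnit (qq (Matrix.of a)).det := isUnit_iff_ne_zero.2 hdet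
  haveI : Invertible (qq (Matrix.of a)) := Matrix.invertibleOfIsUnitDet _ hu
  have hB : ∀ i j, j < i → ((qq (Matrix.of a))⁻¹) i j = 0 :=
    fun i j hij => Matrix.blockTriangular_inv_of_blockTriangular hBT hij
  have hdiag : ∀ i, ((qq (Matrix.of a))⁻¹) i i = (a i i : ℚ)⁻¹ := by
    intro i
    have h1 := (cli2_mul hA hB).2 i
    rw [Matrix.mul_nonsing_inv _ hu, Matrix.one_apply_eq] at h1
    have h2 : (1 : ℚ) = (a i i : ℚ) * ((qq (Matrix.of a))⁻¹) i i := h1
    exact (eq_inv_of_mul_eq_one_right h2.symm)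
  obtain ⟨h1, h2⟩ := cli2_mul hB hd.1
  have h3 : ∀ i, ((qq (Matrix.of a))⁻¹ * d) i i = (a i i : ℚ)⁻¹ * d i i := by
    intro i
    rw [h2 i, hdiag i]
  refine ⟨⟨h1, fun i => ?_⟩, h3⟩
  rw [h3 i]
  exact mul_pos (inv_pos.2 (hpos i)) (hd.2 i)

example : type_of% @UT_uniq := @UT_uniq
example : type_of% @UT_repL := @UT_repL
example : type_of% @UT_repR := @UT_repR

end

end Pool.Agent.CL
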