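import Pool.Agent.Lib_helper19.CL.Defs
import Pool.Agent.Lib_helper19.CLF.I2
import Pool.Agent.Lib_helper56.SGB.F.HI
import Pool.Agent.Lib_helper56.GLQ.F.L1b

/-!
# CL: block I1 (triangular bases)
-/

set_option autoImplicit false

namespace Pool.Agent.CL

open Finset
open Pool.Agent.SGN (Wd wt UW supS subS unrm uvec nf repR repL)
open Pool.Agent.GLQ (Lat Lz latt sp qq)
open Pool.Agent.SGB (IsB)
open Pool.Agent.BX (OF OFy VA VB cw HC)

noncomputable section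

theorem UT_det {n : ℕ} {d : Matrix (Fin n) (Fin n) ℚ} (hd : UT d) : 0 < d.det := by
  have h1 : d.det = ∏ i, d i i := Matrix.det_of_isUpperTriangular (by
    intro i j hij
    exact hd.1 i j hij)
  rw [h1]
  exact Finset.prod_pos fun i _ => hd.2 i

/-- a common denominator -/
theorem cli1_den {n : ℕ} (d : Matrix (Fin n) (Fin n) ℚ) :
    ∃ (c : ℕ) (P : Matrix (Fin n) (Fin n) ℤ), 1 ≤ c ∧ (c : ℚ) • d = qq P := by
  refine ⟨∏ i, ∏ j, (d i j).den, Matrix.of fun i j =>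
    (d i j).num * ((∏ i, ∏ j, (d i j).den) / (d i j).den : ℕ), ?_, ?_⟩
  · exact Nat.one_le_iff_ne_zero.2 (Finset.prod_ne_zero_iff.2 fun i _ =>
      Finset.prod_ne_zero_iff.2 fun j _ => (d i j).den_nz)
  · ext i j
    have h1 : (d i j).den ∣ ∏ i, ∏ j, (d i j).den :=
      (Finset.dvd_prod_of_mem (fun j => (d i j).den) (Finset.mem_univ j)).trans
        (Finset.dvd_prod_of_mem (fun i => ∏ j, (d i j).den) (Finset.mem_univ i))
    obtain ⟨t, ht⟩ := h1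
    have h2 : (∏ i, ∏ j, (d i j).den) / (d i j).den = t := by
      rw [ht]
      exact Nat.mul_div_cancel_left _ (d i j).den_pos
    show ((∏ i, ∏ j, (d i j).den : ℕ) : ℚ) * d i j =
      (((d i j).num * ((∏ i, ∏ j, (d i j).den) / (d i j).den : ℕ) : ℤ) : ℚ)
    rw [h2, ht]
    push_cast
    have h3 : (d i j) * (d i j).den = (d i j).num := Rat.mul_den_eq_num _
    rw [← h3]
    ring

theorem cli1_qq_mul {n : ℕ} (X Y : Matrix (Fin n) (Fin n) ℤ) : qq (X * Y) = qq X * qq Y := by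
  ext i j
  simp [qq, Matrix.mul_apply]

theorem cli1_le {n : ℕ} (T : Matrix (Fin n) (Fin n) ℤ) (d : Matrix (Fin n) (Fin n) ℚ) :
    latt (qq T * d) ≤ latt d := by
  intro v hv
  obtain ⟨x, rfl⟩ := Pool.Agent.GLQ.l1b_mem.1 hv
  rw [Pool.Agent.GLQ.l1b_mem]
  refine ⟨Matrix.vecMul x T, ?_⟩
  rw [← Matrix.vecMul_vecMul]
  congr 1
  ext j
  simp [Matrix.vecMul, dotProduct, qq]

theorem cli1_SL {n : ℕ} (γ : Matrix.SpecialLinearGroup (Fin n) ℤ)
    (d : Matrix (Fin n) (Fin n) ℚ) : latt (qq γ.1 * d) = latt d := by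
  refine le_antisymm (cli1_le _ _) ?_
  have h1 : d = qq (γ⁻¹ : Matrix.SpecialLinearGroup (Fin n) ℤ).1 * (qq γ.1 * d) := by
    rw [← Matrix.mul_assoc, ← cli1_qq_mul]
    have h2 : (γ⁻¹ : Matrix.SpecialLinearGroup (Fin n) ℤ).1 * γ.1 = 1 :=
      congrArg Subtype.val (inv_mul_cancel γ)
    rw [h2]
    have h3 : qq (1 : Matrix (Fin n) (Fin n) ℤ) = 1 := by
      ext i j
      by_cases h : i = j
      · subst h; simp [qq]
      · simp [qq, h]
    rw [h3, Matrix.one_mul]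
  conv_lhs => rw [h1]
  exact cli1_le _ _

/-- PROOF. `c d` integral, `hnfL`. -/
theorem exists_UT {n : ℕ} {L : Lat (n + 1)} (hL : FL L) : ∃ d, UT d ∧ latt d = L := by
  obtain ⟨d, hd, rfl⟩ := hL
  obtain ⟨c, P, hc, hP⟩ := cli1_den d
  have hc0 : (0 : ℚ) < c := by exact_mod_cast hc
  have hdet : (0 : ℚ) < (P.det : ℚ) := by
    have h1 : (qq P).det = (P.det : ℚ) := (RingHom.map_det (Int.castRingHom ℚ) P).symm
    rw [← h1, ← hP, Matrix.det_smul]
    exact mul_pos (pow_pos hc0 _) hd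
  have hdet' : 0 < P.det := by exact_mod_cast hdet
  obtain ⟨k, hk⟩ := Int.eq_ofNat_of_zero_le hdet'.le
  have hk1 : 1 ≤ k := by omega
  obtain ⟨a, ha, γ, hγ⟩ := Pool.Agent.SGB.hnfL hk1 P hk
  have ha' : (∀ i j, j < i → a i j = 0) ∧ ∀ i, 0 < a i i := by
    unfold repL at ha
    rw [Finset.mem_filter] at ha
    obtain ⟨h0, h1, -, h3⟩ := ha
    refine ⟨h1, fun i => ?_⟩
    have h4 := Finset.mem_Icc.1 (Fintype.mem_piFinset.1 (Fintype.mem_piFinset.1 h0 i) i)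
    refine lt_of_le_of_ne h4.1 fun h5 => ?_
    have h6 : ∏ i, a i i = 0 := Finset.prod_eq_zero (Finset.mem_univ i) h5.symm
    rw [h6] at h3
    omega
  refine ⟨(c : ℚ)⁻¹ • qq (Matrix.of a), ⟨fun i j hij => ?_, fun i => ?_⟩, ?_⟩
  · show (c : ℚ)⁻¹ * ((a i j : ℤ) : ℚ) = 0
    rw [ha'.1 i j hij, Int.cast_zero, mul_zero]
  · show 0 < (c : ℚ)⁻¹ * ((a i i : ℤ) : ℚ)
    exact mul_pos (inv_pos.2 hc0) (Int.cast_pos.2 (ha'.2 i))
  · have h1 : d = qq γ.1 * ((c : ℚ)⁻¹ • qq (Matrix.of a)) := by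
      rw [Matrix.mul_smul, ← cli1_qq_mul, ← hγ, ← hP, smul_smul, inv_mul_cancel₀ hc0.ne',
        one_smul]
    conv_rhs => rw [h1]
    rw [cli1_SL]

theorem wL_eq {n : ℕ} {d : Matrix (Fin n) (Fin n) ℚ} (hd : UT d) :
    wL (latt d) = ∏ i, ((d i i : ℚ) : ℝ) ^ ex n i := by
  have h0 : ∃ e, UT e ∧ latt e = latt d := ⟨d, hd, rfl⟩
  unfold wL
  rw [dif_pos h0]
  obtain ⟨h1, h2⟩ := h0.choose_spec
  exact Finset.prod_congr rfl fun i _ => by rw [UT_uniq h1 hd h2 i]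

theorem wL_pos {n : ℕ} (L : Lat n) : 0 < wL L := by
  unfold wL
  split_ifs with h
  · exact Finset.prod_pos fun i _ =>
      Real.rpow_pos_of_pos (Rat.cast_pos.2 (h.choose_spec.1.2 i)) _
  · exact one_pos

end

end Pool.Agent.CL
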