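import Pool.Agent.Lib_helper19.CL.Defs

/-!
# CL, block J: sums over the Hermite forms
-/

set_option autoImplicit false

namespace Pool.Agent.CL

open Finset
open Pool.Agent.SGN (Wd wt UW supS subS unrm uvec nf repR repL)
open Pool.Agent.GLQ (Lat Lz latt sp qq)
open Pool.Agent.SGB (IsB)
open Pool.Agent.BX (OF OFy VA VB cw HC)

noncomputable section

/-- the diagonals -/
def clj_D (n k : ℕ) : Finset (Fin n → ℕ) :=
  (Fintype.piFinset fun _ : Fin n => Nat.divisors k).filter fun d => ∏ i, d i = k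

theorem clj_card (n k : ℕ) : (clj_D n k).card = dn n k := rfl

/-- the diagonal of an integral matrix -/
def clj_dg {n : ℕ} (a : Fin n → Fin n → ℤ) : Fin n → ℕ := fun i => (a i i).toNat

theorem clj_pos {n k : ℕ} (hk : 1 ≤ k) {a : Fin n → Fin n → ℤ}
    (h0 : ∀ i j, 0 ≤ a i j) (h3 : ∏ i, a i i = k) (i : Fin n) : 0 < a i i := by
  have hne : a i i ≠ 0 := by
    intro h
    have : ∏ i, a i i = 0 := Finset.prod_eq_zero (Finset.mem_univ i) h
    rw [h3] at this
    have : k = 0 := by exact_mod_cast this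
    omega
  exact lt_of_le_of_ne (h0 i i) (Ne.symm hne)

theorem clj_maps {n k : ℕ} (hk : 1 ≤ k) {a : Fin n → Fin n → ℤ}
    (h0 : ∀ i j, 0 ≤ a i j) (h3 : ∏ i, a i i = k) : clj_dg a ∈ clj_D n k := by
  have hp := clj_pos hk h0 h3
  have hc : ∀ i, ((clj_dg a i : ℕ) : ℤ) = a i i := fun i => Int.toNat_of_nonneg (h0 i i)
  have hprod : ∏ i, clj_dg a i = k := by
    have : ((∏ i, clj_dg a i : ℕ) : ℤ) = (k : ℤ) := by
      rw [Nat.cast_prod, ← h3]
      exact Finset.prod_congr rfl fun i _ => hc i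
    exact_mod_cast this
  rw [clj_D, Finset.mem_filter, Fintype.mem_piFinset]
  refine ⟨fun i => ?_, hprod⟩
  rw [Nat.mem_divisors]
  refine ⟨?_, by omega⟩
  rw [← hprod]
  exact Finset.dvd_prod_of_mem _ (Finset.mem_univ i)

/-- a general count: the matrices with given diagonal and with the entries above the diagonal in
`[0, r i j)` -/
theorem clj_count {n : ℕ} (S : Finset (Fin n → Fin n → ℤ)) (d : Fin n → ℕ)
    (r : Fin n → Fin n → ℕ)
    (hS : ∀ a ∈ S, (∀ i, a i i = d i) ∧ (∀ i j, j < i → a i j = 0) ∧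
      ∀ i j, i < j → 0 ≤ a i j ∧ a i j < r i j) :
    S.card ≤ ∏ i, ∏ j, if i < j then r i j else 1 := by
  classical
  let T : Finset (Fin n → Fin n → ℤ) :=
    Fintype.piFinset fun i => Fintype.piFinset fun j =>
      if i < j then Finset.Ico (0 : ℤ) (r i j) else if i = j then {(d i : ℤ)} else {0}
  have hsub : S ⊆ T := by
    intro a ha
    obtain ⟨h1, h2, h3⟩ := hS a ha
    rw [Fintype.mem_piFinset]
    intro i
    rw [Fintype.mem_piFinset]
    intro j
    rcases lt_trichotomy i j with h | h | h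
    · rw [if_pos h, Finset.mem_Ico]; exact h3 i j h
    · subst h
      rw [if_neg (lt_irrefl _), if_pos rfl, Finset.mem_singleton]; exact h1 i
    · rw [if_neg (not_lt.2 h.le), if_neg (ne_of_gt h), Finset.mem_singleton]
      exact h2 i j h
  refine (Finset.card_le_card hsub).trans (le_of_eq ?_)
  rw [Fintype.card_piFinset]
  refine Finset.prod_congr rfl fun i _ => ?_
  rw [Fintype.card_piFinset]
  refine Finset.prod_congr rfl fun j _ => ?_
  split_ifs with h1 h2
  · simp
  · simp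
  · simp

theorem clj_colprod {n : ℕ} (d : Fin n → ℕ) :
    (∏ i : Fin n, ∏ j : Fin n, if i < j then d j else 1) = ∏ j, d j ^ (j : ℕ) := by
  classical
  rw [Finset.prod_comm]
  refine Finset.prod_congr rfl fun j _ => ?_
  rw [Finset.prod_ite, Finset.prod_const_one, mul_one, Finset.prod_const]
  congr 1
  have : (Finset.univ.filter fun i : Fin n => i < j) = Finset.Iio j := by
    ext i; simp
  rw [this, Fin.card_Iio]

theorem clj_rowprod {n : ℕ} (d : Fin n → ℕ) :
    (∏ i : Fin n, ∏ j : Fin n, if i < j then d i else 1) = ∏ i, d i ^ (n - 1 - (i : ℕ)) := by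
  classical
  refine Finset.prod_congr rfl fun i _ => ?_
  rw [Finset.prod_ite, Finset.prod_const_one, mul_one, Finset.prod_const]
  congr 1
  have : (Finset.univ.filter fun j : Fin n => i < j) = Finset.Ioi i := by
    ext j; simp
  rw [this, Fin.card_Ioi]

theorem sum_repL (n k : ℕ) (hk : 1 ≤ k) :
    ∑ a ∈ repL n k, ∏ i, ((a i i : ℤ) : ℝ) ^ ex n i ≤
      (k : ℝ) ^ (((n : ℝ) - 1) / 2) * dn n k := by
  classical
  have hmem : ∀ a ∈ repL n k, (∀ i j, 0 ≤ a i j) ∧ (∀ i j, j < i → a i j = 0) ∧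
      (∀ i j, i < j → a i j < a j j) ∧ ∏ i, a i i = k := by
    intro a ha
    rw [repL, Finset.mem_filter, Fintype.mem_piFinset] at ha
    refine ⟨fun i j => ?_, ha.2.1, ha.2.2.1, ha.2.2.2⟩
    have := Fintype.mem_piFinset.1 (ha.1 i) j
    exact (Finset.mem_Icc.1 this).1
  have hmaps : ∀ a ∈ repL n k, clj_dg a ∈ clj_D n k := fun a ha =>
    clj_maps hk (hmem a ha).1 (hmem a ha).2.2.2
  rw [← Finset.sum_fiberwise_of_maps_to hmaps]
  have hfib : ∀ d ∈ clj_D n k, ∑ a ∈ (repL n k).filter (fun a => clj_dg a = d),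
      ∏ i, ((a i i : ℤ) : ℝ) ^ ex n i ≤ (k : ℝ) ^ (((n : ℝ) - 1) / 2) := by
    intro d hd
    rw [clj_D, Finset.mem_filter, Fintype.mem_piFinset] at hd
    have hdk : ∏ i, d i = k := hd.2
    have hdpos : ∀ i, 0 < d i := fun i => Nat.pos_of_mem_divisors (hd.1 i)
    have hdiag : ∀ a ∈ (repL n k).filter (fun a => clj_dg a = d), ∀ i, a i i = d i := by
      intro a ha i
      rw [Finset.mem_filter] at ha
      rw [← ha.2]
      exact (Int.toNat_of_nonneg ((hmem a ha.1).1 i i)).symm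
    have hconst : ∀ a ∈ (repL n k).filter (fun a => clj_dg a = d),
        ∏ i, ((a i i : ℤ) : ℝ) ^ ex n i = ∏ i, (d i : ℝ) ^ ex n i := by
      intro a ha
      refine Finset.prod_congr rfl fun i _ => ?_
      rw [hdiag a ha i]; simp
    rw [Finset.sum_congr rfl hconst, Finset.sum_const, nsmul_eq_mul]
    have hcard : ((repL n k).filter (fun a => clj_dg a = d)).card ≤ ∏ j, d j ^ (j : ℕ) := by
      rw [← clj_colprod d]
      refine clj_count _ d (fun _ j => d j) fun a ha => ⟨hdiag a ha, ?_, ?_⟩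
      · exact (hmem a (Finset.mem_filter.1 ha).1).2.1
      · intro i j hij
        refine ⟨(hmem a (Finset.mem_filter.1 ha).1).1 i j, ?_⟩
        rw [← hdiag a ha j]
        exact (hmem a (Finset.mem_filter.1 ha).1).2.2.1 i j hij
    have hnn : 0 ≤ ∏ i, (d i : ℝ) ^ ex n i :=
      Finset.prod_nonneg fun i _ => Real.rpow_nonneg (Nat.cast_nonneg _) _
    calc (((repL n k).filter (fun a => clj_dg a = d)).card : ℝ) * ∏ i, (d i : ℝ) ^ ex n i
        ≤ ((∏ j, d j ^ (j : ℕ) : ℕ) : ℝ) * ∏ i, (d i : ℝ) ^ ex n i :=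
          mul_le_mul_of_nonneg_right (by exact_mod_cast hcard) hnn
      _ = (k : ℝ) ^ (((n : ℝ) - 1) / 2) := by
          rw [Nat.cast_prod, ← Finset.prod_mul_distrib, ← hdk, Nat.cast_prod,
            ← Real.finsetProd_rpow _ _ (fun i _ => Nat.cast_nonneg _)]
          refine Finset.prod_congr rfl fun i _ => ?_
          have hp : (0 : ℝ) < d i := by exact_mod_cast hdpos i
          rw [Nat.cast_pow, ← Real.rpow_natCast, ← Real.rpow_add hp]
          congr 1
          rw [ex]; ring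
  refine (Finset.sum_le_sum hfib).trans (le_of_eq ?_)
  rw [Finset.sum_const, nsmul_eq_mul, clj_card, mul_comm]

theorem sum_repR (n k : ℕ) (hk : 1 ≤ k) :
    ∑ a ∈ repR n k, ∏ i, ((a i i : ℤ) : ℝ) ^ (-ex n i) ≤
      (k : ℝ) ^ (((n : ℝ) - 1) / 2) * dn n k := by
  classical
  have hmem : ∀ a ∈ repR n k, (∀ i j, 0 ≤ a i j) ∧ (∀ i j, j < i → a i j = 0) ∧
      (∀ i j, i < j → a i j < a i i) ∧ ∏ i, a i i = k := by
    intro a ha
    rw [repR, Finset.mem_filter, Fintype.mem_piFinset] at ha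
    refine ⟨fun i j => ?_, ha.2.1, ha.2.2.1, ha.2.2.2⟩
    have := Fintype.mem_piFinset.1 (ha.1 i) j
    exact (Finset.mem_Icc.1 this).1
  have hmaps : ∀ a ∈ repR n k, clj_dg a ∈ clj_D n k := fun a ha =>
    clj_maps hk (hmem a ha).1 (hmem a ha).2.2.2
  rw [← Finset.sum_fiberwise_of_maps_to hmaps]
  have hfib : ∀ d ∈ clj_D n k, ∑ a ∈ (repR n k).filter (fun a => clj_dg a = d),
      ∏ i, ((a i i : ℤ) : ℝ) ^ (-ex n i) ≤ (k : ℝ) ^ (((n : ℝ) - 1) / 2) := by
    intro d hd
    rw [clj_D, Finset.mem_filter, Fintype.mem_piFinset] at hd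
    have hdk : ∏ i, d i = k := hd.2
    have hdpos : ∀ i, 0 < d i := fun i => Nat.pos_of_mem_divisors (hd.1 i)
    have hdiag : ∀ a ∈ (repR n k).filter (fun a => clj_dg a = d), ∀ i, a i i = d i := by
      intro a ha i
      rw [Finset.mem_filter] at ha
      rw [← ha.2]
      exact (Int.toNat_of_nonneg ((hmem a ha.1).1 i i)).symm
    have hconst : ∀ a ∈ (repR n k).filter (fun a => clj_dg a = d),
        ∏ i, ((a i i : ℤ) : ℝ) ^ (-ex n i) = ∏ i, (d i : ℝ) ^ (-ex n i) := by
      intro a ha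
      refine Finset.prod_congr rfl fun i _ => ?_
      rw [hdiag a ha i]; simp
    rw [Finset.sum_congr rfl hconst, Finset.sum_const, nsmul_eq_mul]
    have hcard : ((repR n k).filter (fun a => clj_dg a = d)).card ≤
        ∏ i, d i ^ (n - 1 - (i : ℕ)) := by
      rw [← clj_rowprod d]
      refine clj_count _ d (fun i _ => d i) fun a ha => ⟨hdiag a ha, ?_, ?_⟩
      · exact (hmem a (Finset.mem_filter.1 ha).1).2.1
      · intro i j hij
        refine ⟨(hmem a (Finset.mem_filter.1 ha).1).1 i j, ?_⟩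
        rw [← hdiag a ha i]
        exact (hmem a (Finset.mem_filter.1 ha).1).2.2.1 i j hij
    have hnn : 0 ≤ ∏ i, (d i : ℝ) ^ (-ex n i) :=
      Finset.prod_nonneg fun i _ => Real.rpow_nonneg (Nat.cast_nonneg _) _
    calc (((repR n k).filter (fun a => clj_dg a = d)).card : ℝ) * ∏ i, (d i : ℝ) ^ (-ex n i)
        ≤ ((∏ i, d i ^ (n - 1 - (i : ℕ)) : ℕ) : ℝ) * ∏ i, (d i : ℝ) ^ (-ex n i) :=
          mul_le_mul_of_nonneg_right (by exact_mod_cast hcard) hnn
      _ = (k : ℝ) ^ (((n : ℝ) - 1) / 2) := by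
          rw [Nat.cast_prod, ← Finset.prod_mul_distrib, ← hdk, Nat.cast_prod,
            ← Real.finsetProd_rpow _ _ (fun i _ => Nat.cast_nonneg _)]
          refine Finset.prod_congr rfl fun i _ => ?_
          have hp : (0 : ℝ) < d i := by exact_mod_cast hdpos i
          rw [Nat.cast_pow, ← Real.rpow_natCast, ← Real.rpow_add hp]
          congr 1
          have hi : ((n - 1 - (i : ℕ) : ℕ) : ℝ) = (n : ℝ) - 1 - (i : ℕ) := by
            have h1 := i.2
            rw [Nat.cast_sub (by omega), Nat.cast_sub (by omega)]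
            simp
          rw [hi, ex]; ring
  refine (Finset.sum_le_sum hfib).trans (le_of_eq ?_)
  rw [Finset.sum_const, nsmul_eq_mul, clj_card, mul_comm]

end

end Pool.Agent.CL
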