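import Pool.Agent.Lib_helper19.CL.Defs
import Pool.Agent.Lib_helper19.CLF.I1
import Pool.Agent.Lib_helper19.CLF.I2
import Pool.Agent.Lib_helper19.CLF.J
import Pool.Agent.Lib_helper56.SGB.F.HI

set_option autoImplicit false

namespace Pool.Agent.CL

open Finset
open Pool.Agent.SGN (Wd wt UW supS subS unrm uvec nf repR repL)
open Pool.Agent.GLQ (Lat Lz latt sp qq)
open Pool.Agent.SGB (IsB)
open Pool.Agent.BX (OF OFy VA VB cw HC)

noncomputable section

/-! ### K: sums of the weights -/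

theorem w_sup {n k : ℕ} (hk : 1 ≤ k) {L : Lat (n + 1)} (hL : FL L) :
    ∑ M ∈ supS k L, wL M ≤ (k : ℝ) ^ ((n : ℝ) / 2) * dn (n + 1) k * wL L := by
  obtain ⟨d, hd, rfl⟩ := exists_UT hL
  rw [Pool.Agent.SGB.sum_supS hk (fun M => wL M) d (UT_det hd)]
  have e1 : ∀ a ∈ repR (n + 1) k, wL (latt ((qq (Matrix.of a))⁻¹ * d)) =
      (∏ i, ((a i i : ℤ) : ℝ) ^ (-ex (n + 1) i)) * wL (latt d) := by
    intro a ha
    obtain ⟨h1, h2⟩ := UT_repR hk hd ha
    rw [wL_eq h1, wL_eq hd, ← Finset.prod_mul_distrib]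
    apply Finset.prod_congr rfl
    intro i _
    have hp : 0 < ((qq (Matrix.of a))⁻¹ * d) i i := h1.2 i
    rw [h2 i] at hp ⊢
    have hdi : 0 < d i i := hd.2 i
    have hai : 0 < ((a i i : ℤ) : ℚ)⁻¹ := by
      by_contra hcon
      push Not at hcon
      nlinarith [mul_nonpos_of_nonpos_of_nonneg hcon hdi.le]
    have hai' : 0 < ((a i i : ℤ) : ℚ) := inv_pos.mp hai
    have hai2 : (0 : ℝ) < ((a i i : ℤ) : ℝ) := by exact_mod_cast hai'
    have hdi2 : (0 : ℝ) < ((d i i : ℚ) : ℝ) := by exact_mod_cast hdi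
    push_cast
    rw [Real.mul_rpow (inv_nonneg.mpr hai2.le) hdi2.le, Real.inv_rpow hai2.le,
      Real.rpow_neg hai2.le]
  rw [Finset.sum_congr rfl e1, ← Finset.sum_mul]
  have h3 := sum_repR (n + 1) k hk
  have e2 : (((n + 1 : ℕ) : ℝ) - 1) / 2 = (n : ℝ) / 2 := by
    push_cast
    ring
  rw [e2] at h3
  exact mul_le_mul_of_nonneg_right h3 (wL_pos _).le

theorem w_sub {n k : ℕ} (hk : 1 ≤ k) {L : Lat (n + 1)} (hL : FL L) :
    ∑ M ∈ subS k L, wL M ≤ (k : ℝ) ^ ((n : ℝ) / 2) * dn (n + 1) k * wL L := by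
  obtain ⟨d, hd, rfl⟩ := exists_UT hL
  rw [Pool.Agent.SGB.sum_subS hk (fun M => wL M) d (UT_det hd)]
  have e1 : ∀ a ∈ repL (n + 1) k, wL (latt (qq (Matrix.of a) * d)) =
      (∏ i, ((a i i : ℤ) : ℝ) ^ ex (n + 1) i) * wL (latt d) := by
    intro a ha
    obtain ⟨h1, h2⟩ := UT_repL hk hd ha
    rw [wL_eq h1, wL_eq hd, ← Finset.prod_mul_distrib]
    apply Finset.prod_congr rfl
    intro i _
    have hp : 0 < (qq (Matrix.of a) * d) i i := h1.2 i
    rw [h2 i] at hp ⊢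
    have hdi : 0 < d i i := hd.2 i
    have hai' : 0 < ((a i i : ℤ) : ℚ) := by
      by_contra hcon
      push Not at hcon
      nlinarith [mul_nonpos_of_nonpos_of_nonneg hcon hdi.le]
    have hai2 : (0 : ℝ) < ((a i i : ℤ) : ℝ) := by exact_mod_cast hai'
    have hdi2 : (0 : ℝ) < ((d i i : ℚ) : ℝ) := by exact_mod_cast hdi
    push_cast
    rw [Real.mul_rpow hai2.le hdi2.le]
  rw [Finset.sum_congr rfl e1, ← Finset.sum_mul]
  have h3 := sum_repL (n + 1) k hk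
  have e2 : (((n + 1 : ℕ) : ℝ) - 1) / 2 = (n : ℝ) / 2 := by
    push_cast
    ring
  rw [e2] at h3
  exact mul_le_mul_of_nonneg_right h3 (wL_pos _).le

end

end Pool.Agent.CL
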