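import Pool.Agent.Lib_helper19.CL.Defs

/-! # CL, block L: the Schur test -/

set_option autoImplicit false

namespace Pool.Agent.CL

open Finset
open Pool.Agent.SGN (Wd wt UW supS subS unrm uvec nf repR repL)
open Pool.Agent.GLQ (Lat Lz latt sp qq)
open Pool.Agent.SGB (IsB)
open Pool.Agent.BX (OF OFy VA VB cw HC)

noncomputable section

open Classical in
theorem cll_sp {V : Type} (up : V → Finset V) (f : V →₀ ℕ) (y : V) :
    sp up f y = ∑ x ∈ f.support, if y ∈ up x then f x else 0 := by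
  unfold sp Finsupp.sum
  rw [Finsupp.finsetSum_apply]
  refine Finset.sum_congr rfl fun x _ => ?_
  rw [Finsupp.finsetSum_apply]
  simp only [Finsupp.single_apply]
  rw [Finset.sum_ite_eq']

theorem schur {V : Type} (up dw : V → Finset V) (S : Set V) (w : V → ℝ) (C : ℝ)
    (hw : ∀ x, 0 < w x) (hS : ∀ x ∈ S, ∀ y ∈ up x, y ∈ S) (hS' : ∀ x ∈ S, ∀ y ∈ dw x, y ∈ S)
    (sym : ∀ x ∈ S, ∀ y ∈ S, y ∈ up x ↔ x ∈ dw y) (h1 : ∀ x ∈ S, ∑ y ∈ up x, w y ≤ C * w x)
    (h2 : ∀ x ∈ S, ∑ y ∈ dw x, w y ≤ C * w x) (f : V →₀ ℕ) (hf : ∀ x ∈ f.support, x ∈ S) :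
    nrm (sp up f) ≤ C ^ 2 * nrm f := by
  classical
  set g := sp up f with hg
  have hgy : ∀ y, (g y : ℝ) = ∑ x ∈ f.support.filter (fun x => y ∈ up x), (f x : ℝ) := by
    intro y
    rw [hg, cll_sp]
    push_cast
    rw [Finset.sum_filter]
  have hgS : ∀ y ∈ g.support, y ∈ S := by
    intro y hy
    rw [Finsupp.mem_support_iff, hg, cll_sp] at hy
    obtain ⟨x, hx, hxy⟩ := Finset.exists_ne_zero_of_sum_ne_zero hy
    have h3 : y ∈ up x := by
      by_contra h
      exact hxy (if_neg h)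
    exact hS x (hf x hx) y h3
  -- the pointwise bound
  have hC : ∀ y ∈ S, 0 ≤ C := by
    intro y hy
    have h3 : 0 ≤ C * w y := (Finset.sum_nonneg fun x _ => (hw x).le).trans (h2 y hy)
    by_contra h4
    push Not at h4
    have := mul_neg_of_neg_of_pos h4 (hw y)
    linarith
  have hpt : ∀ y ∈ g.support, (g y : ℝ) ^ 2 ≤
      C * ∑ x ∈ f.support, if y ∈ up x then w y * ((f x : ℝ) ^ 2 / w x) else 0 := by
    intro y hy
    have hyS := hgS y hy
    set F := f.support.filter (fun x => y ∈ up x) with hF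
    have hFS : ∀ x ∈ F, x ∈ dw y := by
      intro x hx
      rw [hF, Finset.mem_filter] at hx
      exact (sym x (hf x hx.1) y hyS).1 hx.2
    have h3 : (∑ x ∈ F, (f x : ℝ)) ^ 2 ≤ (∑ x ∈ F, w x) * ∑ x ∈ F, (f x : ℝ) ^ 2 / w x := by
      refine Finset.sum_sq_le_sum_mul_sum_of_sq_eq_mul F (fun x _ => (hw x).le)
        (fun x _ => div_nonneg (sq_nonneg _) (hw x).le) fun x _ => ?_
      rw [mul_div_cancel₀ _ (hw x).ne']
    have h4 : ∑ x ∈ F, w x ≤ C * w y :=
      (Finset.sum_le_sum_of_subset_of_nonneg hFS fun x _ _ => (hw x).le).trans (h2 y hyS)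
    have h5 : 0 ≤ ∑ x ∈ F, (f x : ℝ) ^ 2 / w x :=
      Finset.sum_nonneg fun x _ => div_nonneg (sq_nonneg _) (hw x).le
    rw [hgy y]
    refine h3.trans ((mul_le_mul_of_nonneg_right h4 h5).trans (le_of_eq ?_))
    rw [← Finset.sum_filter, ← hF, ← Finset.mul_sum]
    ring
  have hsum : nrm g = ∑ y ∈ g.support, (g y : ℝ) ^ 2 := rfl
  have hsumf : nrm f = ∑ x ∈ f.support, (f x : ℝ) ^ 2 := rfl
  rw [hsum, hsumf, Finset.mul_sum]
  refine (Finset.sum_le_sum hpt).trans ?_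
  rw [← Finset.mul_sum, Finset.sum_comm, Finset.mul_sum]
  refine Finset.sum_le_sum fun x hx => ?_
  have hxS := hf x hx
  have hC0 := hC x hxS
  have h6 : (∑ y ∈ g.support, if y ∈ up x then w y * ((f x : ℝ) ^ 2 / w x) else 0) ≤
      C * (f x : ℝ) ^ 2 := by
    rw [← Finset.sum_filter, ← Finset.sum_mul]
    have h7 : ∑ y ∈ g.support.filter (fun y => y ∈ up x), w y ≤ C * w x := by
      refine (Finset.sum_le_sum_of_subset_of_nonneg (fun y hy => ?_) fun y _ _ => (hw y).le).trans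
        (h1 x hxS)
      exact (Finset.mem_filter.1 hy).2
    refine (mul_le_mul_of_nonneg_right h7 (div_nonneg (sq_nonneg _) (hw x).le)).trans (le_of_eq ?_)
    rw [mul_assoc, mul_div_cancel₀ _ (hw x).ne']
  calc C * (∑ y ∈ g.support, if y ∈ up x then w y * ((f x : ℝ) ^ 2 / w x) else 0)
      ≤ C * (C * (f x : ℝ) ^ 2) := mul_le_mul_of_nonneg_left h6 hC0
    _ = C ^ 2 * (f x : ℝ) ^ 2 := by ring

end

end Pool.Agent.CL
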