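import Pool.Agent.Lib_helper19.CL.Defs
import Pool.Agent.Lib_helper19.CLF.A
import Pool.Agent.Lib_helper19.CLF.K
import Pool.Agent.Lib_helper19.CLF.L

/-!
# CL, block M: norms of words
-/

set_option autoImplicit false

namespace Pool.Agent.CL

open Finset
open Pool.Agent.SGN (Wd wt UW supS subS unrm uvec nf repR repL)
open Pool.Agent.GLQ (Lat Lz latt sp qq)
open Pool.Agent.SGB (IsB)
open Pool.Agent.BX (OF OFy VA VB cw HC)

noncomputable section

theorem clm_sup {n k : ℕ} (hk : 1 ≤ k) (f : Lat (n + 1) →₀ ℕ) (hf : ∀ L ∈ f.support, FL L) :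
    nrm (sp (supS k) f) ≤ ((k : ℝ) ^ ((n : ℝ) / 2) * dn (n + 1) k) ^ 2 * nrm f :=
  schur (supS k) (subS k) {L | FL L} wL _ wL_pos (fun _ hL _ hM => FL_sup hk hL hM)
    (fun _ hL _ hM => FL_sub hk hL hM) (fun _ hL _ hM => sup_sub hk hM hL)
    (fun _ hL => w_sup hk hL) (fun _ hL => w_sub hk hL) f hf

theorem clm_sub {n k : ℕ} (hk : 1 ≤ k) (f : Lat (n + 1) →₀ ℕ) (hf : ∀ L ∈ f.support, FL L) :
    nrm (sp (subS k) f) ≤ ((k : ℝ) ^ ((n : ℝ) / 2) * dn (n + 1) k) ^ 2 * nrm f :=
  schur (subS k) (supS k) {L | FL L} wL _ wL_pos (fun _ hL _ hM => FL_sub hk hL hM)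
    (fun _ hL _ hM => FL_sup hk hL hM) (fun _ hL _ hM => (sup_sub hk hL hM).symm)
    (fun _ hL => w_sub hk hL) (fun _ hL => w_sup hk hL) f hf

theorem clm_sq {n k : ℕ} (x : ℝ) :
    ((k : ℝ) ^ ((n : ℝ) / 2) * x) ^ 2 = (k : ℝ) ^ n * x ^ 2 := by
  rw [mul_pow, ← Real.rpow_natCast ((k : ℝ) ^ ((n : ℝ) / 2)) 2, ← Real.rpow_mul (Nat.cast_nonneg k)]
  congr 1
  rw [show (n : ℝ) / 2 * ((2 : ℕ) : ℝ) = (n : ℝ) by push_cast; ring, Real.rpow_natCast]

theorem clm_single {V : Type} (v : V) : nrm (Finsupp.single v 1) = 1 := by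
  rw [nrm, Finsupp.sum_single_index]
  · simp
  · simp

theorem clm_nn {V : Type} (f : V →₀ ℕ) : 0 ≤ nrm f :=
  Finset.sum_nonneg fun _ _ => sq_nonneg _

theorem clm_subl {n : ℕ} (l : List ℕ) (hl : ∀ b ∈ l, 1 ≤ b) :
    nrm (UW (n + 1) ([], l)) ≤ (l.prod : ℝ) ^ n * ((l.map (dn (n + 1))).prod : ℝ) ^ 2 := by
  induction l with
  | nil =>
    have h : UW (n + 1) (([], []) : Wd) = Finsupp.single (Lz (n + 1)) 1 := rfl
    rw [h, clm_single]
    simp
  | cons b l ih =>
    have h : UW (n + 1) (([], b :: l) : Wd) = sp (subS b) (UW (n + 1) ([], l)) := rfl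
    have hl' : ∀ c ∈ l, 1 ≤ c := fun c hc => hl c (List.mem_cons_of_mem _ hc)
    have hb : 1 ≤ b := hl b List.mem_cons_self
    rw [h]
    refine (clm_sub hb _ fun L hL => UW_FL (W := ([], l)) ⟨by simp, hl'⟩
      (Finsupp.mem_support_iff.1 hL)).trans ?_
    rw [clm_sq]
    calc (b : ℝ) ^ n * (dn (n + 1) b : ℝ) ^ 2 * nrm (UW (n + 1) ([], l))
        ≤ (b : ℝ) ^ n * (dn (n + 1) b : ℝ) ^ 2 *
          ((l.prod : ℝ) ^ n * ((l.map (dn (n + 1))).prod : ℝ) ^ 2) :=
          mul_le_mul_of_nonneg_left (ih hl') (by positivity)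
      _ = _ := by
          rw [List.prod_cons, List.map_cons, List.prod_cons]
          push_cast
          ring

theorem nrm_UW {n : ℕ} {W : Wd} (hW : (∀ a ∈ W.1, 1 ≤ a) ∧ ∀ b ∈ W.2, 1 ≤ b) :
    nrm (UW (n + 1) W) ≤ (wt W : ℝ) ^ n *
      (((W.1.map (dn (n + 1))).prod : ℝ) * ((W.2.map (dn (n + 1))).prod : ℝ)) ^ 2 := by
  obtain ⟨l, l'⟩ := W
  obtain ⟨h1, h2⟩ := hW
  simp only at h1 h2 ⊢
  induction l with
  | nil =>
    have h := clm_subl (n := n) l' h2
    simpa [wt] using h
  | cons a l ih =>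
    have h : UW (n + 1) ((a :: l, l') : Wd) = sp (supS a) (UW (n + 1) (l, l')) := rfl
    have hl' : ∀ c ∈ l, 1 ≤ c := fun c hc => h1 c (List.mem_cons_of_mem _ hc)
    have ha : 1 ≤ a := h1 a List.mem_cons_self
    rw [h]
    refine (clm_sup ha _ fun L hL => UW_FL (W := (l, l')) ⟨hl', h2⟩
      (Finsupp.mem_support_iff.1 hL)).trans ?_
    rw [clm_sq]
    calc (a : ℝ) ^ n * (dn (n + 1) a : ℝ) ^ 2 * nrm (UW (n + 1) (l, l'))
        ≤ (a : ℝ) ^ n * (dn (n + 1) a : ℝ) ^ 2 * ((wt (l, l') : ℝ) ^ n *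
          (((l.map (dn (n + 1))).prod : ℝ) * ((l'.map (dn (n + 1))).prod : ℝ)) ^ 2) :=
          mul_le_mul_of_nonneg_left (ih hl') (by positivity)
      _ = _ := by
          rw [wt, wt, List.prod_cons, List.map_cons, List.prod_cons]
          push_cast
          ring

open Classical in
theorem dn_prime (n p : ℕ) (hp : p.Prime) : dn n p = n := by
  rw [dn]
  have h : (Fintype.piFinset fun _ : Fin n => Nat.divisors p).filter (fun d => ∏ i, d i = p) =
      (univ : Finset (Fin n)).image fun i => Function.update (fun _ => 1) i p := by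
    ext d
    rw [mem_filter, mem_image]
    constructor
    · rintro ⟨h1, h2⟩
      have h3 : ∃ i ∈ (univ : Finset (Fin n)), p ∣ d i :=
        (hp.prime.dvd_finsetProd_iff _).1 (by rw [h2])
      obtain ⟨i, -, hi⟩ := h3
      have h4 : ∀ j, d j ∣ p := fun j =>
        (Nat.mem_divisors.1 (Fintype.mem_piFinset.1 h1 j)).1
      have h5 : d i = p := Nat.dvd_antisymm (h4 i) hi
      refine ⟨i, mem_univ _, ?_⟩
      rw [← mul_prod_erase univ d (mem_univ i), h5] at h2
      have h6 : ∏ j ∈ univ.erase i, d j = 1 := by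
        have := hp.pos
        nlinarith [Nat.eq_of_mul_eq_mul_left hp.pos (h2.trans (mul_one p).symm)]
      funext j
      by_cases hj : j = i
      · subst hj
        rw [Function.update_self, h5]
      · rw [Function.update_of_ne hj]
        exact (Nat.eq_one_of_dvd_one (h6 ▸ dvd_prod_of_mem d (mem_erase.2 ⟨hj, mem_univ _⟩))).symm
    · rintro ⟨i, -, rfl⟩
      refine ⟨Fintype.mem_piFinset.2 fun j => ?_, ?_⟩
      · rw [Nat.mem_divisors]
        refine ⟨?_, hp.ne_zero⟩
        by_cases hj : j = i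
        · subst hj
          rw [Function.update_self]
        · rw [Function.update_of_ne hj]
          exact one_dvd _
      · rw [prod_update_of_mem (mem_univ _)]
        simp
  have h' : ((Fintype.piFinset fun _ : Fin n => Nat.divisors p).filter
      (fun d => ∏ i, d i = p)).card = n := by
    rw [h, card_image_of_injective]
    · simp
    · intro i j hij
      by_contra hne
      have := congrFun hij i
      simp only [Function.update_self, Function.update_of_ne hne] at this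
      exact hp.one_lt.ne' this
  convert h'

theorem clm_map (n : ℕ) (l : List ℕ) (hl : ∀ p ∈ l, p.Prime) :
    (l.map (dn (n + 1))).prod = (n + 1) ^ l.length := by
  induction l with
  | nil => simp
  | cons p l ih =>
    rw [List.map_cons, List.prod_cons, ih fun q hq => hl q (List.mem_cons_of_mem _ hq),
      dn_prime (n + 1) p (hl p List.mem_cons_self), List.length_cons, pow_succ]
    ring

theorem nrm_A {n : ℕ} (m k : ℕ) (hm : 1 ≤ m) (hk : 1 ≤ k) :
    nrm (UW (n + 1) (m :: k.primeFactorsList, [])) ≤ ((m : ℝ) * k) ^ n *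
      ((dn (n + 1) m : ℝ) * ((n : ℝ) + 1) ^ k.primeFactorsList.length) ^ 2 := by
  have h := nrm_UW (n := n) (W := (m :: k.primeFactorsList, [])) ⟨by
    intro a ha
    rcases List.mem_cons.1 ha with rfl | ha
    · exact hm
    · exact (Nat.prime_of_mem_primeFactorsList ha).one_lt.le, by simp⟩
  have h2 := clm_map n k.primeFactorsList fun p hp => Nat.prime_of_mem_primeFactorsList hp
  have h3 : wt (m :: k.primeFactorsList, []) = m * k := by
    rw [wt, List.prod_cons, Nat.prod_primeFactorsList (by omega)]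
    simp
  simp only at h
  rw [h3, List.map_cons, List.prod_cons, h2] at h
  refine h.trans (le_of_eq ?_)
  push_cast
  simp

theorem nrm_B {n : ℕ} (m k : ℕ) (hm : 1 ≤ m) (hk : 1 ≤ k) :
    nrm (UW (n + 1) ([m], k.primeFactorsList.reverse)) ≤ ((m : ℝ) * k) ^ n *
      ((dn (n + 1) m : ℝ) * ((n : ℝ) + 1) ^ k.primeFactorsList.length) ^ 2 := by
  have h := nrm_UW (n := n) (W := ([m], k.primeFactorsList.reverse)) ⟨by
    intro a ha
    rw [List.mem_singleton.1 ha]
    exact hm, by
    intro a ha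
    exact (Nat.prime_of_mem_primeFactorsList (List.mem_reverse.1 ha)).one_lt.le⟩
  have h2 := clm_map n k.primeFactorsList fun p hp => Nat.prime_of_mem_primeFactorsList hp
  have h3 : wt ([m], k.primeFactorsList.reverse) = m * k := by
    rw [wt, List.prod_singleton, List.prod_reverse, Nat.prod_primeFactorsList (by omega)]
  simp only at h
  rw [h3, List.map_reverse, List.prod_reverse, h2, List.map_singleton, List.prod_singleton] at h
  refine h.trans (le_of_eq ?_)
  push_cast
  ring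

end

end Pool.Agent.CL
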