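import Pool.Agent.Lib_helper19.CL.Defs

set_option autoImplicit false

namespace Pool.Agent.CL

open Finset
open Pool.Agent.SGN (Wd wt UW supS subS unrm uvec nf repR repL)
open Pool.Agent.GLQ (Lat Lz latt sp qq)
open Pool.Agent.SGB (IsB)
open Pool.Agent.BX (OF OFy VA VB cw HC)

noncomputable section

/-! ### block N -/

theorem dn_le (n m : ℕ) : dn n m ≤ m.divisors.card ^ n := by
  unfold dn
  refine (card_filter_le _ _).trans ?_
  rw [Fintype.card_piFinset]
  simp

theorem card_div_mul (a b : ℕ) :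
    (a * b).divisors.card ≤ a.divisors.card * b.divisors.card := by
  classical
  rw [Nat.divisors_mul]
  exact Finset.card_mul_le

theorem cln_two_pow (k : ℕ) (hk : 1 ≤ k) : 2 ^ k.primeFactors.card ≤ k.divisors.card := by
  rw [Nat.card_divisors (by omega)]
  rw [← Finset.prod_const]
  apply Finset.prod_le_prod'
  intro p hp
  have hp' := Nat.prime_of_mem_primeFactors hp
  have h1 : 1 ≤ k.factorization p :=
    (hp'.dvd_iff_one_le_factorization (by omega)).mp (Nat.dvd_of_mem_primeFactors hp)
  omega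

theorem cln_omega (n k : ℕ) (hk : 1 ≤ k) (h : Fr n k) :
    k.primeFactorsList.length ≤ n * k.primeFactors.card := by
  have h1 : k.primeFactorsList.length = ∑ p ∈ k.primeFactors, k.factorization p := by
    have := ArithmeticFunction.cardFactors_eq_sum_factorization (n := k)
    rw [ArithmeticFunction.cardFactors_apply] at this
    rw [this]
    rfl
  rw [h1, mul_comm, ← smul_eq_mul]
  apply Finset.sum_le_card_nsmul
  intro p hp
  by_contra hc
  rw [not_le] at hc
  have hp' := Nat.prime_of_mem_primeFactors hp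
  exact h p hp' ((hp'.pow_dvd_iff_le_factorization (by omega)).mpr hc)

theorem Fr_le (n k : ℕ) (hn : 1 ≤ n) (hk : 1 ≤ k) (h : Fr n k) :
    n ^ k.primeFactorsList.length ≤ k.divisors.card ^ (n ^ 2) := by
  calc n ^ k.primeFactorsList.length ≤ n ^ (n * k.primeFactors.card) :=
        Nat.pow_le_pow_right hn (cln_omega n k hk h)
    _ ≤ (2 ^ n) ^ (n * k.primeFactors.card) := Nat.pow_le_pow_left Nat.lt_two_pow_self.le _
    _ = (2 ^ k.primeFactors.card) ^ (n ^ 2) := by
        rw [← pow_mul, ← pow_mul]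
        congr 1
        ring
    _ ≤ k.divisors.card ^ (n ^ 2) := Nat.pow_le_pow_left (cln_two_pow k hk) _

theorem cln_harm (x : ℕ) : ∑ m ∈ Icc 1 x, (1 : ℝ) / m ≤ 1 + Real.log x := by
  have h := harmonic_le_one_add_log x
  have h2 : ((harmonic x : ℚ) : ℝ) = ∑ n ∈ Icc 1 x, (1 : ℝ) / n := by
    rw [harmonic_eq_sum_Icc]
    push_cast
    exact sum_congr rfl fun n _ => by simp
  rw [← h2]; exact h

theorem sum_div (A x : ℕ) (hx : 1 ≤ x) :
    ∑ m ∈ Icc 1 x, (m.divisors.card : ℝ) ^ A / m ≤ (1 + Real.log x) ^ (2 ^ A) := by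
  classical
  have hlog : 0 ≤ Real.log x := Real.log_nonneg (by exact_mod_cast hx)
  induction A with
  | zero =>
    simpa using cln_harm x
  | succ A ih =>
    have e1 : ∀ m ∈ Icc 1 x, (m.divisors.card : ℝ) ^ (A + 1) / m =
        ∑ j ∈ m.divisorsAntidiagonal, ((j.1 * j.2).divisors.card : ℝ) ^ A / ((j.1 * j.2 : ℕ) : ℝ) := by
      intro m _
      have : ∀ j ∈ m.divisorsAntidiagonal,
          ((j.1 * j.2).divisors.card : ℝ) ^ A / ((j.1 * j.2 : ℕ) : ℝ) =
          (m.divisors.card : ℝ) ^ A / m := by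
        intro j hj
        rw [(Nat.mem_divisorsAntidiagonal.mp hj).1]
      rw [sum_congr rfl this, sum_const, nsmul_eq_mul]
      have hc : m.divisorsAntidiagonal.card = m.divisors.card := by
        rw [← Nat.map_div_right_divisors, card_map]
      rw [hc, pow_succ]
      ring
    rw [sum_congr rfl e1]
    have e2 : ∑ m ∈ Icc 1 x, ∑ j ∈ m.divisorsAntidiagonal,
        ((j.1 * j.2).divisors.card : ℝ) ^ A / ((j.1 * j.2 : ℕ) : ℝ) ≤
        ∑ j ∈ Icc 1 x ×ˢ Icc 1 x, ((j.1.divisors.card : ℝ) ^ A / j.1) *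
          ((j.2.divisors.card : ℝ) ^ A / j.2) := by
      rw [sum_sigma']
      rw [← sum_image (s := (Icc 1 x).sigma fun m => m.divisorsAntidiagonal)
        (g := fun z => z.2)
        (f := fun j : ℕ × ℕ => ((j.1 * j.2).divisors.card : ℝ) ^ A / ((j.1 * j.2 : ℕ) : ℝ))]
      · refine (sum_le_sum_of_subset_of_nonneg ?_ fun _ _ _ => by positivity).trans
          (sum_le_sum fun j hj => ?_)
        · intro j hj
          simp only [mem_image, mem_sigma, mem_Icc, Nat.mem_divisorsAntidiagonal] at hj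
          obtain ⟨⟨m, j'⟩, ⟨⟨h1, h2⟩, h3, h4⟩, rfl⟩ := hj
          simp only at h1 h2 h3 h4
          have ha : 0 < j'.1 := by
            rcases Nat.eq_zero_or_pos j'.1 with h | h
            · rw [h, zero_mul] at h3; omega
            · exact h
          have hb : 0 < j'.2 := by
            rcases Nat.eq_zero_or_pos j'.2 with h | h
            · rw [h, mul_zero] at h3; omega
            · exact h
          simp only [mem_product, mem_Icc]
          refine ⟨⟨ha, ?_⟩, hb, ?_⟩
          · exact (Nat.le_mul_of_pos_right _ hb).trans (h3.le.trans h2)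
          · exact (Nat.le_mul_of_pos_left _ ha).trans (h3.le.trans h2)
        · have h1 : ((j.1 * j.2).divisors.card : ℝ) ≤ (j.1.divisors.card : ℝ) * j.2.divisors.card := by
            exact_mod_cast card_div_mul j.1 j.2
          have h2 : ((j.1 * j.2).divisors.card : ℝ) ^ A ≤
              ((j.1.divisors.card : ℝ) * j.2.divisors.card) ^ A :=
            pow_le_pow_left₀ (by positivity) h1 A
          push_cast
          rw [div_mul_div_comm, ← mul_pow]
          exact div_le_div_of_nonneg_right h2 (by positivity)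
      · rintro ⟨m, j⟩ h ⟨m', j'⟩ h' hj
        simp only [coe_sigma, Set.mem_sigma_iff, mem_coe, Nat.mem_divisorsAntidiagonal] at h h'
        simp only at hj
        subst hj
        have : m = m' := h.2.1.symm.trans h'.2.1
        subst this
        rfl
    refine e2.trans ?_
    have e3 : ∑ j ∈ Icc 1 x ×ˢ Icc 1 x, ((j.1.divisors.card : ℝ) ^ A / j.1) *
          ((j.2.divisors.card : ℝ) ^ A / j.2) =
        (∑ m ∈ Icc 1 x, (m.divisors.card : ℝ) ^ A / m) *
          ∑ m ∈ Icc 1 x, (m.divisors.card : ℝ) ^ A / m := by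
      rw [sum_mul_sum, ← sum_product']
    rw [e3]
    have h0 : 0 ≤ ∑ m ∈ Icc 1 x, (m.divisors.card : ℝ) ^ A / m :=
      sum_nonneg fun _ _ => by positivity
    calc (∑ m ∈ Icc 1 x, (m.divisors.card : ℝ) ^ A / m) * ∑ m ∈ Icc 1 x, (m.divisors.card : ℝ) ^ A / m
        ≤ (1 + Real.log x) ^ (2 ^ A) * (1 + Real.log x) ^ (2 ^ A) :=
          mul_le_mul ih ih h0 (by positivity)
      _ = (1 + Real.log x) ^ (2 ^ (A + 1)) := by
          rw [← pow_add]
          congr 1
          ring

end

end Pool.Agent.CL
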