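import Pool.Agent.Lib_helper19.CL.Defs

set_option autoImplicit false

namespace Pool.Agent.CL

open Finset
open Pool.Agent.SGN (Wd wt UW supS subS unrm uvec nf repR repL)
open Pool.Agent.GLQ (Lat Lz latt sp qq)
open Pool.Agent.SGB (IsB)
open Pool.Agent.BX (OF OFy VA VB cw HC)

noncomputable section

theorem clo_one {J : Type} (J1 : Finset J) (x : J → ℂ) (c : J → ℝ) (hc : ∀ j ∈ J1, 0 < c j) :
    ‖∑ j ∈ J1, x j‖ ^ 2 ≤ (∑ j ∈ J1, 1 / c j) * ∑ j ∈ J1, c j * ‖x j‖ ^ 2 := by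
  have h1 : ‖∑ j ∈ J1, x j‖ ^ 2 ≤ (∑ j ∈ J1, ‖x j‖) ^ 2 := by
    gcongr
    exact norm_sum_le _ _
  refine h1.trans ?_
  refine Finset.sum_sq_le_sum_mul_sum_of_sq_le_mul J1 (fun j hj => ?_) (fun j hj => ?_)
    (fun j hj => ?_)
  · exact (one_div_pos.mpr (hc j hj)).le
  · exact mul_nonneg (hc j hj).le (sq_nonneg _)
  · apply le_of_eq
    have := (hc j hj).ne'
    field_simp

/-- PROOF. For every `i` only the `j` with one value of `ρ j` contribute: Cauchy-Schwarz with the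
weights `c`. -/
theorem ortho {ι J R : Type} [DecidableEq R] (J0 : Finset J) (S : Finset ι) (ρ : J → R)
    (x : J → ι → ℂ) (c : J → ℝ) (hc : ∀ j ∈ J0, 0 < c j) (T : ℝ)
    (hT : ∀ r, ∑ j ∈ J0.filter (fun j => ρ j = r), 1 / c j ≤ T)
    (ho : ∀ i ∈ S, ∀ j ∈ J0, ∀ j' ∈ J0, x j i ≠ 0 → x j' i ≠ 0 → ρ j = ρ j') :
    ∑ i ∈ S, ‖∑ j ∈ J0, x j i‖ ^ 2 ≤ T * ∑ j ∈ J0, c j * ∑ i ∈ S, ‖x j i‖ ^ 2 := by
  have key : ∀ i ∈ S, ‖∑ j ∈ J0, x j i‖ ^ 2 ≤ T * ∑ j ∈ J0, c j * ‖x j i‖ ^ 2 := by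
    intro i hi
    by_cases h : ∃ j ∈ J0, x j i ≠ 0
    · obtain ⟨j0, hj0, hx0⟩ := h
      have e1 : ∑ j ∈ J0, x j i = ∑ j ∈ J0.filter (fun j => ρ j = ρ j0), x j i := by
        symm
        apply Finset.sum_subset (Finset.filter_subset _ _)
        intro j hj hj'
        by_contra hne
        exact hj' (Finset.mem_filter.mpr ⟨hj, ho i hi j hj j0 hj0 hne hx0⟩)
      rw [e1]
      refine (clo_one _ _ c (fun j hj => hc j (Finset.mem_filter.mp hj).1)).trans ?_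
      have hT0 : 0 ≤ T := le_trans
        (Finset.sum_nonneg fun j hj => (one_div_pos.mpr (hc j (Finset.mem_filter.mp hj).1)).le)
        (hT (ρ j0))
      refine mul_le_mul (hT _) ?_ ?_ hT0
      · apply Finset.sum_le_sum_of_subset_of_nonneg (Finset.filter_subset _ _)
        intro j hj _
        exact mul_nonneg (hc j hj).le (sq_nonneg _)
      · exact Finset.sum_nonneg fun j hj =>
          mul_nonneg (hc j (Finset.mem_filter.mp hj).1).le (sq_nonneg _)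
    · push Not at h
      have e1 : ∑ j ∈ J0, x j i = 0 := Finset.sum_eq_zero h
      have e2 : ∑ j ∈ J0, c j * ‖x j i‖ ^ 2 = 0 := by
        apply Finset.sum_eq_zero
        intro j hj
        rw [h j hj]
        simp
      rw [e1, e2]
      simp
  refine (Finset.sum_le_sum key).trans ?_
  rw [← Finset.mul_sum, Finset.sum_comm]
  refine le_of_eq ?_
  congr 1
  apply Finset.sum_congr rfl
  intro j _
  rw [Finset.mul_sum]

end

end Pool.Agent.CL
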