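import Pool.Agent.Lib_helper19.CL.Defs
import Pool.Agent.Lib_helper19.CLF.C

/-!
# CL, block P1: the vectors
-/

set_option autoImplicit false

namespace Pool.Agent.CL

open Finset
open Pool.Agent.SGN (Wd wt UW supS subS unrm uvec nf repR repL)
open Pool.Agent.GLQ (Lat Lz latt sp qq)
open Pool.Agent.SGB (IsB)
open Pool.Agent.BX (OF OFy VA VB cw HC)

noncomputable section

theorem clp1_sum (y : ℕ) (f : List ℕ → ℂ) :
    ∑ l ∈ OFy y, f l = ∑ k ∈ Icc 1 y, ∑ l ∈ OF k, f l := by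
  unfold OFy
  refine Finset.sum_biUnion ?_
  intro a ha b hb hab
  rw [Function.onFun, Finset.disjoint_left]
  intro l h1 h2
  rw [Finset.mem_coe, Finset.mem_Icc] at ha hb
  rw [mem_OF ha.1] at h1
  rw [mem_OF hb.1] at h2
  exact hab (h1.2.symm.trans h2.2)

theorem clp1_pow (n : ℕ) (x : ℝ) (hx : 0 < x) :
    ((x ^ (-(1 / 2) : ℝ) : ℝ) : ℂ) * ((x ^ (-((((n + 1 : ℕ) : ℝ) - 1) / 2)) : ℝ) : ℂ) =
      ((x ^ (-(((n : ℝ) + 1) / 2)) : ℝ) : ℂ) := by
  rw [← Complex.ofReal_mul, ← Real.rpow_add hx]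
  congr 2
  push_cast
  ring

/-- P1 -/
theorem uvec_A (n N y : ℕ) (ψ : ℕ → ℕ → ℂ) (L : Lat (n + 1)) :
    uvec (n + 1) N (VA y) (cw ψ) L = ∑ j ∈ Icc 1 N ×ˢ Icc 1 y, ψ j.1 j.2 *
      ((((j.1 : ℝ) * j.2) ^ (-(((n : ℝ) + 1) / 2)) : ℝ) : ℂ) *
        ((∑ l ∈ OF j.2, (-1) ^ l.length * (UW (n + 1) (j.1 :: l, []) L : ℤ) : ℤ) : ℂ) := by
  unfold uvec
  rw [Finset.sum_product]
  refine Finset.sum_congr rfl fun m hm => ?_
  rw [Finset.mem_Icc] at hm
  have hm0 : (0 : ℝ) < m := by exact_mod_cast hm.1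
  unfold VA
  rw [Finset.sum_image (fun a _ b _ h => (Prod.mk.inj h).1), clp1_sum]
  refine Finset.sum_congr rfl fun k hk => ?_
  rw [Finset.mem_Icc] at hk
  have hk0 : (0 : ℝ) < k := by exact_mod_cast hk.1
  rw [Int.cast_sum, Finset.mul_sum]
  refine Finset.sum_congr rfl fun l hl => ?_
  rw [mem_OF hk.1] at hl
  have h1 : wt (l, []) = k := by
    show l.prod * ([] : List ℕ).prod = k
    rw [hl.2, List.prod_nil, mul_one]
  have h2 : wt (m :: l, []) = m * k := by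
    show (m :: l).prod * ([] : List ℕ).prod = m * k
    rw [List.prod_cons, hl.2, List.prod_nil, mul_one]
  unfold cw nf
  simp only [h1, h2, List.length_nil, add_zero]
  rw [← clp1_pow n ((m : ℝ) * k) (mul_pos hm0 hk0)]
  push_cast
  ring

/-- P1 -/
theorem uvec_B (n N y : ℕ) (ψ : ℕ → ℕ → ℂ) (L : Lat (n + 1)) :
    uvec (n + 1) N (VB y) (cw ψ) L = ∑ j ∈ Icc 1 N ×ˢ Icc 1 y, ψ j.1 j.2 *
      ((((j.1 : ℝ) * j.2) ^ (-(((n : ℝ) + 1) / 2)) : ℝ) : ℂ) *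
        ((∑ l ∈ OF j.2, (-1) ^ l.length * (UW (n + 1) ([j.1], l) L : ℤ) : ℤ) : ℂ) := by
  unfold uvec
  rw [Finset.sum_product]
  refine Finset.sum_congr rfl fun m hm => ?_
  rw [Finset.mem_Icc] at hm
  have hm0 : (0 : ℝ) < m := by exact_mod_cast hm.1
  unfold VB
  rw [Finset.sum_image (fun a _ b _ h => (Prod.mk.inj h).2), clp1_sum]
  refine Finset.sum_congr rfl fun k hk => ?_
  rw [Finset.mem_Icc] at hk
  have hk0 : (0 : ℝ) < k := by exact_mod_cast hk.1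
  rw [Int.cast_sum, Finset.mul_sum]
  refine Finset.sum_congr rfl fun l hl => ?_
  rw [mem_OF hk.1] at hl
  have h1 : wt ([], l) = k := by
    show ([] : List ℕ).prod * l.prod = k
    rw [hl.2, List.prod_nil, one_mul]
  have h2 : wt ([m], l) = m * k := by
    show ([m] : List ℕ).prod * l.prod = m * k
    rw [hl.2, List.prod_singleton]
  unfold cw nf
  simp only [h1, h2, List.length_nil, zero_add]
  rw [← clp1_pow n ((m : ℝ) * k) (mul_pos hm0 hk0)]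
  push_cast
  ring

end

end Pool.Agent.CL
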