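import Pool.Agent.Lib_helper19.CL.Defs
import Pool.Agent.Lib_helper19.CLF.H
import Pool.Agent.Lib_helper19.CLF.M
import Pool.Agent.Lib_helper19.CLF.N

/-!
# CL: block P2 (the norms of the terms)
-/

set_option autoImplicit false

namespace Pool.Agent.CL

open Finset
open Pool.Agent.SGN (Wd wt UW supS subS unrm uvec nf repR repL)
open Pool.Agent.GLQ (Lat Lz latt sp qq)
open Pool.Agent.SGB (IsB)
open Pool.Agent.BX (OF OFy VA VB cw HC)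

noncomputable section

theorem clp2_nrm {V : Type} (f : V →₀ ℕ) (S : Finset V) :
    ∑ L ∈ S, ((f L : ℕ) : ℝ) ^ 2 ≤ nrm f := by
  classical
  unfold nrm Finsupp.sum
  rw [← Finset.sum_filter_add_sum_filter_not S (fun L => L ∈ f.support)]
  have h1 : ∑ L ∈ S.filter (fun L => ¬ L ∈ f.support), ((f L : ℕ) : ℝ) ^ 2 = 0 := by
    refine Finset.sum_eq_zero fun L hL => ?_
    have h2 : f L = 0 := Finsupp.notMem_support_iff.1 (Finset.mem_filter.1 hL).2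
    rw [h2]
    norm_num
  rw [h1, add_zero]
  refine Finset.sum_le_sum_of_subset_of_nonneg ?_ fun L _ _ => sq_nonneg _
  intro L hL
  exact (Finset.mem_filter.1 hL).2

open Classical in
theorem clp2_core (n m k : ℕ) (hm : 1 ≤ m) (hk : 1 ≤ k) (z : ℂ) (hz : ‖z‖ ≤ 1)
    (S : Finset (Lat (n + 1))) (x : Lat (n + 1) → ℤ) (f : Lat (n + 1) →₀ ℕ)
    (hx : ∀ L, |x L| ≤ if Fr (n + 1) k then (f L : ℤ) else 0)
    (hf : nrm f ≤ ((m : ℝ) * k) ^ n *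
      ((dn (n + 1) m : ℝ) * ((n : ℝ) + 1) ^ k.primeFactorsList.length) ^ 2) :
    ∑ L ∈ S, ‖z * ((((m : ℝ) * k) ^ (-(((n : ℝ) + 1) / 2)) : ℝ) : ℂ) * ((x L : ℤ) : ℂ)‖ ^ 2 ≤
      ((m.divisors.card : ℝ) ^ (2 * (n + 1) ^ 2) * (k.divisors.card : ℝ) ^ (2 * (n + 1) ^ 2)) /
        ((m : ℝ) * k) := by
  have hm0 : (0 : ℝ) < m := by exact_mod_cast hm
  have hk0 : (0 : ℝ) < k := by exact_mod_cast hk
  have hmk : (0 : ℝ) < (m : ℝ) * k := mul_pos hm0 hk0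
  set c : ℝ := ((m : ℝ) * k) ^ (-(((n : ℝ) + 1) / 2)) with hc
  have hc0 : 0 < c := Real.rpow_pos_of_pos hmk _
  have hc2 : c ^ 2 = (((m : ℝ) * k) ^ (n + 1))⁻¹ := by
    rw [hc, ← Real.rpow_natCast, ← Real.rpow_mul hmk.le, ← Real.rpow_natCast,
      ← Real.rpow_neg hmk.le]
    congr 1
    push_cast
    ring
  have hR : 0 ≤ ((m.divisors.card : ℝ) ^ (2 * (n + 1) ^ 2) *
      (k.divisors.card : ℝ) ^ (2 * (n + 1) ^ 2)) / ((m : ℝ) * k) := by positivity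
  have h1 : ∀ L, ‖z * (c : ℂ) * ((x L : ℤ) : ℂ)‖ ^ 2 ≤ c ^ 2 * ((|x L| : ℤ) : ℝ) ^ 2 := by
    intro L
    rw [norm_mul, norm_mul, Complex.norm_real, Real.norm_eq_abs, abs_of_pos hc0,
      Complex.norm_intCast, mul_pow, mul_pow, Int.cast_abs, sq_abs]
    have h2 : ‖z‖ ^ 2 ≤ 1 := pow_le_one₀ (norm_nonneg _) hz
    have h3 : 0 ≤ c ^ 2 * ((x L : ℤ) : ℝ) ^ 2 := by positivity
    nlinarith
  refine (Finset.sum_le_sum fun L _ => h1 L).trans ?_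
  by_cases hF : Fr (n + 1) k
  · have h2 : ∀ L, ((|x L| : ℤ) : ℝ) ^ 2 ≤ ((f L : ℕ) : ℝ) ^ 2 := by
      intro L
      have h3 := hx L
      rw [if_pos hF] at h3
      have h4 : ((|x L| : ℤ) : ℝ) ≤ ((f L : ℕ) : ℝ) := by exact_mod_cast h3
      have h5 : (0 : ℝ) ≤ ((|x L| : ℤ) : ℝ) := by exact_mod_cast abs_nonneg (x L)
      exact pow_le_pow_left₀ h5 h4 2
    have hd1 : (1 : ℝ) ≤ (m.divisors.card : ℝ) := by
      exact_mod_cast Finset.card_pos.2 ⟨1, Nat.one_mem_divisors.2 (by omega)⟩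
    have hd2 : (0 : ℝ) ≤ (k.divisors.card : ℝ) := Nat.cast_nonneg _
    have h6 : (dn (n + 1) m : ℝ) ≤ (m.divisors.card : ℝ) ^ (n + 1) := by
      exact_mod_cast dn_le (n + 1) m
    have h7 : ((n : ℝ) + 1) ^ k.primeFactorsList.length ≤
        (k.divisors.card : ℝ) ^ ((n + 1) ^ 2) := by
      have h8 := Fr_le (n + 1) k (by omega) hk hF
      have h9 : (((n + 1) ^ k.primeFactorsList.length : ℕ) : ℝ) ≤
          ((k.divisors.card ^ ((n + 1) ^ 2) : ℕ) : ℝ) := by exact_mod_cast h8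
      push_cast at h9
      exact h9
    calc ∑ L ∈ S, c ^ 2 * ((|x L| : ℤ) : ℝ) ^ 2 ≤ ∑ L ∈ S, c ^ 2 * ((f L : ℕ) : ℝ) ^ 2 :=
          Finset.sum_le_sum fun L _ => mul_le_mul_of_nonneg_left (h2 L) (sq_nonneg _)
      _ = c ^ 2 * ∑ L ∈ S, ((f L : ℕ) : ℝ) ^ 2 := by rw [Finset.mul_sum]
      _ ≤ c ^ 2 * (((m : ℝ) * k) ^ n *
          ((dn (n + 1) m : ℝ) * ((n : ℝ) + 1) ^ k.primeFactorsList.length) ^ 2) :=
          mul_le_mul_of_nonneg_left ((clp2_nrm f S).trans hf) (sq_nonneg _)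
      _ ≤ c ^ 2 * (((m : ℝ) * k) ^ n *
          ((m.divisors.card : ℝ) ^ (n + 1) * (k.divisors.card : ℝ) ^ ((n + 1) ^ 2)) ^ 2) := by
          gcongr
      _ ≤ c ^ 2 * (((m : ℝ) * k) ^ n *
          ((m.divisors.card : ℝ) ^ ((n + 1) ^ 2) *
            (k.divisors.card : ℝ) ^ ((n + 1) ^ 2)) ^ 2) := by
          have h8 : (m.divisors.card : ℝ) ^ (n + 1) ≤ (m.divisors.card : ℝ) ^ ((n + 1) ^ 2) :=
            pow_le_pow_right₀ hd1 (by nlinarith)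
          gcongr
      _ = _ := by
          rw [hc2]
          field_simp
          ring
  · have h2 : ∀ L, x L = 0 := by
      intro L
      have h3 := hx L
      rw [if_neg hF] at h3
      exact abs_eq_zero.1 (le_antisymm h3 (abs_nonneg _))
    have h3 : ∑ L ∈ S, c ^ 2 * ((|x L| : ℤ) : ℝ) ^ 2 = 0 := by
      refine Finset.sum_eq_zero fun L _ => ?_
      rw [h2 L]
      simp
    rw [h3]
    exact hR

/-- P2: with `D(m) = d(m)^(2 (n+1)²)`: the norms of the terms -/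
theorem term_A (n : ℕ) (m k : ℕ) (hm : 1 ≤ m) (hk : 1 ≤ k) (z : ℂ) (hz : ‖z‖ ≤ 1)
    (S : Finset (Lat (n + 1))) :
    ∑ L ∈ S, ‖z * ((((m : ℝ) * k) ^ (-(((n : ℝ) + 1) / 2)) : ℝ) : ℂ) *
      ((∑ l ∈ OF k, (-1) ^ l.length * (UW (n + 1) (m :: l, []) L : ℤ) : ℤ) : ℂ)‖ ^ 2 ≤
      ((m.divisors.card : ℝ) ^ (2 * (n + 1) ^ 2) * (k.divisors.card : ℝ) ^ (2 * (n + 1) ^ 2)) /
        ((m : ℝ) * k) :=
  clp2_core n m k hm hk z hz S
    (fun L => ∑ l ∈ OF k, (-1) ^ l.length * (UW (n + 1) (m :: l, []) L : ℤ))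
    (UW (n + 1) (m :: k.primeFactorsList, [])) (fun L => dom_A m k hm hk L) (nrm_A m k hm hk)

/-- P2 -/
theorem term_B (n : ℕ) (m k : ℕ) (hm : 1 ≤ m) (hk : 1 ≤ k) (z : ℂ) (hz : ‖z‖ ≤ 1)
    (S : Finset (Lat (n + 1))) :
    ∑ L ∈ S, ‖z * ((((m : ℝ) * k) ^ (-(((n : ℝ) + 1) / 2)) : ℝ) : ℂ) *
      ((∑ l ∈ OF k, (-1) ^ l.length * (UW (n + 1) ([m], l) L : ℤ) : ℤ) : ℂ)‖ ^ 2 ≤
      ((m.divisors.card : ℝ) ^ (2 * (n + 1) ^ 2) * (k.divisors.card : ℝ) ^ (2 * (n + 1) ^ 2)) /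
        ((m : ℝ) * k) :=
  clp2_core n m k hm hk z hz S
    (fun L => ∑ l ∈ OF k, (-1) ^ l.length * (UW (n + 1) ([m], l) L : ℤ))
    (UW (n + 1) ([m], k.primeFactorsList.reverse)) (fun L => dom_B m k hm hk L)
    (nrm_B m k hm hk)

end

end Pool.Agent.CL
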