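import Pool.Agent.Lib_helper19.CL.Defs
import Pool.Agent.Lib_helper19.CLF.H
import Pool.Agent.Lib_helper56.SGB.F.HI
/-! # CL, block P3: the supports of the words -/

set_option autoImplicit false

namespace Pool.Agent.CL

open Finset
open Pool.Agent.SGN (Wd wt UW supS subS unrm uvec nf repR repL)
open Pool.Agent.GLQ (Lat Lz latt sp qq)
open Pool.Agent.SGB (IsB)
open Pool.Agent.BX (OF OFy VA VB cw HC)

noncomputable section

theorem p3_A {n : ℕ} {m k : ℕ} (hm : 1 ≤ m) (hk : 1 ≤ k) {L : Lat (n + 1)}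
    (h : ∑ l ∈ OF k, (-1) ^ l.length * (UW (n + 1) (m :: l, []) L : ℤ) ≠ 0) :
    ∃ d, IsB d L ∧ ((m * k : ℕ) : ℚ) * d.det = 1 := by
  obtain ⟨l, hl, hne⟩ := Finset.exists_ne_zero_of_sum_ne_zero h
  obtain ⟨h2, hp⟩ := (mem_OF hk l).1 hl
  have hU : UW (n + 1) (m :: l, []) L ≠ 0 := by
    intro h0
    rw [h0] at hne
    simp at hne
  obtain ⟨_, d, hd, he⟩ := Pool.Agent.SGB.UW_supp (W := (m :: l, [])) ⟨fun a ha => by
    rcases List.mem_cons.1 ha with rfl | ha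
    · exact hm
    · exact le_trans (by norm_num) (h2 a ha), fun b hb => by simp at hb⟩ hU
  refine ⟨d, hd, ?_⟩
  simpa [hp] using he

theorem p3_B {n : ℕ} {m k : ℕ} (hm : 1 ≤ m) (hk : 1 ≤ k) {L : Lat (n + 1)}
    (h : ∑ l ∈ OF k, (-1) ^ l.length * (UW (n + 1) ([m], l) L : ℤ) ≠ 0) :
    ∃ d, IsB d L ∧ (m : ℚ) * d.det = k := by
  obtain ⟨l, hl, hne⟩ := Finset.exists_ne_zero_of_sum_ne_zero h
  obtain ⟨h2, hp⟩ := (mem_OF hk l).1 hl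
  have hU : UW (n + 1) ([m], l) L ≠ 0 := by
    intro h0
    rw [h0] at hne
    simp at hne
  obtain ⟨_, d, hd, he⟩ := Pool.Agent.SGB.UW_supp (W := ([m], l)) ⟨fun a ha => by
    rw [List.mem_singleton.1 ha]
    exact hm, fun b hb => le_trans (by norm_num) (h2 b hb)⟩ hU
  refine ⟨d, hd, ?_⟩
  simpa [hp] using he

/-- P3: the supports (`SGB.UW_supp`, `SGB.IsB_det`) -/
theorem orth_A {n : ℕ} (m k m' k' : ℕ) (hm : 1 ≤ m) (hk : 1 ≤ k) (hm' : 1 ≤ m') (hk' : 1 ≤ k')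
    (L : Lat (n + 1))
    (h : ∑ l ∈ OF k, (-1) ^ l.length * (UW (n + 1) (m :: l, []) L : ℤ) ≠ 0)
    (h' : ∑ l ∈ OF k', (-1) ^ l.length * (UW (n + 1) (m' :: l, []) L : ℤ) ≠ 0) :
    m * k = m' * k' := by
  obtain ⟨d, hd, he⟩ := p3_A hm hk h
  obtain ⟨d', hd', he'⟩ := p3_A hm' hk' h'
  rw [← Pool.Agent.SGB.IsB_det hd hd'] at he'
  have h0 : d.det ≠ 0 := hd.1.ne'
  have h1 : ((m * k : ℕ) : ℚ) = ((m' * k' : ℕ) : ℚ) :=
    mul_right_cancel₀ h0 (he.trans he'.symm)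
  exact_mod_cast h1

/-- P3 -/
theorem orth_B {n : ℕ} (m k m' k' : ℕ) (hm : 1 ≤ m) (hk : 1 ≤ k) (hm' : 1 ≤ m') (hk' : 1 ≤ k')
    (L : Lat (n + 1))
    (h : ∑ l ∈ OF k, (-1) ^ l.length * (UW (n + 1) ([m], l) L : ℤ) ≠ 0)
    (h' : ∑ l ∈ OF k', (-1) ^ l.length * (UW (n + 1) ([m'], l) L : ℤ) ≠ 0) :
    (m : ℚ) / k = (m' : ℚ) / k' := by
  obtain ⟨d, hd, he⟩ := p3_B hm hk h
  obtain ⟨d', hd', he'⟩ := p3_B hm' hk' h'
  rw [← Pool.Agent.SGB.IsB_det hd hd'] at he'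
  have h0 : d.det ≠ 0 := hd.1.ne'
  have hk0 : (k : ℚ) ≠ 0 := by exact_mod_cast (by omega : k ≠ 0)
  have hk0' : (k' : ℚ) ≠ 0 := by exact_mod_cast (by omega : k' ≠ 0)
  rw [div_eq_div_iff hk0 hk0', ← he, ← he']
  ring

end

end Pool.Agent.CL
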