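import Pool.Agent.Lib_helper19.CL.Defs
import Pool.Agent.Lib_helper19.CLF.N

set_option autoImplicit false

namespace Pool.Agent.CL

open Finset
open Pool.Agent.SGN (Wd wt UW supS subS unrm uvec nf repR repL)
open Pool.Agent.GLQ (Lat Lz latt sp qq)
open Pool.Agent.SGB (IsB)
open Pool.Agent.BX (OF OFy VA VB cw HC)

noncomputable section

/-! ### block Q -/

theorem clq_harm (x : ℕ) : ∑ m ∈ Icc 1 x, (1 : ℝ) / m ≤ 1 + Real.log x := by
  have h := harmonic_le_one_add_log x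
  have h2 : ((harmonic x : ℚ) : ℝ) = ∑ n ∈ Icc 1 x, (1 : ℝ) / n := by
    rw [harmonic_eq_sum_Icc]
    push_cast
    exact sum_congr rfl fun n _ => by simp
  rw [← h2]; exact h

theorem sum_prod (r N y : ℕ) :
    ∑ j ∈ (Icc 1 N ×ˢ Icc 1 y).filter (fun j => j.1 * j.2 = r),
      1 / ((j.1 * j.2).divisors.card : ℝ) ≤ 1 := by
  classical
  rcases Nat.eq_zero_or_pos r with rfl | hr
  · rw [filter_eq_empty_iff.mpr]
    · simp
    · intro j hj h
      simp only [mem_product, mem_Icc] at hj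
      have := Nat.mul_pos hj.1.1 hj.2.1
      omega
  · have e1 : ∀ j ∈ (Icc 1 N ×ˢ Icc 1 y).filter (fun j => j.1 * j.2 = r),
        1 / ((j.1 * j.2).divisors.card : ℝ) = 1 / (r.divisors.card : ℝ) := by
      intro j hj
      rw [(mem_filter.mp hj).2]
    rw [sum_congr rfl e1, sum_const, nsmul_eq_mul]
    have hd : 0 < r.divisors.card := card_pos.mpr ⟨1, Nat.one_mem_divisors.mpr (by omega)⟩
    have h1 : ((Icc 1 N ×ˢ Icc 1 y).filter (fun j => j.1 * j.2 = r)).card ≤ r.divisors.card := by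
      apply card_le_card_of_injOn (fun j => j.1)
      · intro j hj
        have := (mem_filter.mp (mem_coe.mp hj)).2
        simp only [mem_coe, Nat.mem_divisors]
        exact ⟨⟨j.2, this.symm⟩, by omega⟩
      · intro j hj j' hj' he
        have h2 := (mem_filter.mp (mem_coe.mp hj)).2
        have h3 := (mem_filter.mp (mem_coe.mp hj')).2
        have h4 := (mem_filter.mp (mem_coe.mp hj)).1
        simp only [mem_product, mem_Icc] at h4
        simp only at he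
        rw [← he] at h3
        have h5 : j.2 = j'.2 := Nat.eq_of_mul_eq_mul_left (by omega) (h2.trans h3.symm)
        exact Prod.ext he h5
    rw [mul_one_div, div_le_one (by exact_mod_cast hd)]
    exact_mod_cast h1

theorem sum_ratio (r : ℚ) (N y : ℕ) (hN : 1 ≤ N) :
    ∑ j ∈ (Icc 1 N ×ˢ Icc 1 y).filter (fun j => (j.1 : ℚ) / j.2 = r),
      1 / (Nat.gcd j.1 j.2 : ℝ) ≤ 1 + Real.log N := by
  classical
  have hinj : Set.InjOn (fun j : ℕ × ℕ => Nat.gcd j.1 j.2)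
      ((Icc 1 N ×ˢ Icc 1 y).filter (fun j => (j.1 : ℚ) / j.2 = r) : Finset (ℕ × ℕ)) := by
    intro j hj j' hj' he
    have h1 := mem_filter.mp (mem_coe.mp hj)
    have h2 := mem_filter.mp (mem_coe.mp hj')
    simp only [mem_product, mem_Icc] at h1 h2
    obtain ⟨⟨⟨a1, _⟩, a2, _⟩, a3⟩ := h1
    obtain ⟨⟨⟨b1, _⟩, b2, _⟩, b3⟩ := h2
    have h3 : (j.1 : ℚ) / j.2 = (j'.1 : ℚ) / j'.2 := a3.trans b3.symm
    have c2 : (j.2 : ℚ) ≠ 0 := by exact_mod_cast (by omega : j.2 ≠ 0)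
    have c2' : (j'.2 : ℚ) ≠ 0 := by exact_mod_cast (by omega : j'.2 ≠ 0)
    rw [div_eq_div_iff c2 c2'] at h3
    have h4 : j.1 * j'.2 = j'.1 * j.2 := by exact_mod_cast h3
    simp only at he
    obtain ⟨g, s, t, hg, hst, e1, e2⟩ := Nat.exists_coprime' (m := j.1) (n := j.2)
      (Nat.gcd_pos_of_pos_left _ a1)
    obtain ⟨g', s', t', hg', hst', e1', e2'⟩ := Nat.exists_coprime' (m := j'.1) (n := j'.2)
      (Nat.gcd_pos_of_pos_left _ b1)
    have hgg : Nat.gcd j.1 j.2 = g := by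
      rw [e1, e2, Nat.gcd_mul_right, hst.gcd_eq_one, one_mul]
    have hgg' : Nat.gcd j'.1 j'.2 = g' := by
      rw [e1', e2', Nat.gcd_mul_right, hst'.gcd_eq_one, one_mul]
    have hgeq : g = g' := by rw [← hgg, ← hgg', he]
    subst hgeq
    have h5 : s * t' = s' * t := by
      rw [e1, e2, e1', e2'] at h4
      have : g * g * (s * t') = g * g * (s' * t) := by
        calc g * g * (s * t') = s * g * (t' * g) := by ring
          _ = s' * g * (t * g) := h4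
          _ = g * g * (s' * t) := by ring
      exact Nat.eq_of_mul_eq_mul_left (Nat.mul_pos hg hg) this
    have h6 : s = s' := by
      apply Nat.dvd_antisymm
      · exact hst.dvd_of_dvd_mul_right (h5 ▸ Dvd.intro _ rfl)
      · exact hst'.dvd_of_dvd_mul_right (h5 ▸ Dvd.intro _ rfl)
    subst h6
    have hs : 0 < s := by
      rcases Nat.eq_zero_or_pos s with h | h
      · rw [h, zero_mul] at e1; omega
      · exact h
    have h7 : t' = t := Nat.eq_of_mul_eq_mul_left hs h5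
    exact Prod.ext (e1.trans e1'.symm) (by rw [e2, e2', h7])
  have h1 : ∑ j ∈ (Icc 1 N ×ˢ Icc 1 y).filter (fun j => (j.1 : ℚ) / j.2 = r),
      1 / (Nat.gcd j.1 j.2 : ℝ) =
      ∑ g ∈ ((Icc 1 N ×ˢ Icc 1 y).filter (fun j => (j.1 : ℚ) / j.2 = r)).image
        (fun j : ℕ × ℕ => Nat.gcd j.1 j.2), 1 / (g : ℝ) := by
    rw [sum_image hinj]
  rw [h1]
  refine (sum_le_sum_of_subset_of_nonneg (t := Icc 1 N) ?_ fun _ _ _ => by positivity).trans
    (clq_harm N)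
  intro g hg
  obtain ⟨j, hj, rfl⟩ := mem_image.mp hg
  have h2 := (mem_filter.mp hj).1
  simp only [mem_product, mem_Icc] at h2
  rw [mem_Icc]
  exact ⟨Nat.gcd_pos_of_pos_left _ h2.1.1, (Nat.gcd_le_left _ h2.1.1).trans h2.1.2⟩

theorem clq_term (B m k g s t : ℕ) (hg : 0 < g) (hs : 0 < s) (ht : 0 < t) (e1 : m = g * s)
    (e2 : k = g * t) : (g : ℝ) / ((m : ℝ) * k) *
      ((m.divisors.card : ℝ) ^ B * (k.divisors.card : ℝ) ^ B) ≤
      (g.divisors.card : ℝ) ^ (2 * B) / g * ((s.divisors.card : ℝ) ^ B / s *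
        ((t.divisors.card : ℝ) ^ B / t)) := by
  subst e1 e2
  have b1 : ((g * s).divisors.card : ℝ) ^ B ≤ ((g.divisors.card : ℝ) * s.divisors.card) ^ B := by
    apply pow_le_pow_left₀ (by positivity)
    exact_mod_cast card_div_mul g s
  have b2 : ((g * t).divisors.card : ℝ) ^ B ≤ ((g.divisors.card : ℝ) * t.divisors.card) ^ B := by
    apply pow_le_pow_left₀ (by positivity)
    exact_mod_cast card_div_mul g t
  have hgR : (0 : ℝ) < g := by exact_mod_cast hg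
  have hsR : (0 : ℝ) < s := by exact_mod_cast hs
  have htR : (0 : ℝ) < t := by exact_mod_cast ht
  have c1 : (g : ℝ) / (((g * s : ℕ) : ℝ) * ((g * t : ℕ) : ℝ)) = 1 / (g * (s * t)) := by
    push_cast
    field_simp
  rw [c1]
  calc 1 / ((g : ℝ) * (s * t)) * (((g * s).divisors.card : ℝ) ^ B * ((g * t).divisors.card : ℝ) ^ B)
      ≤ 1 / ((g : ℝ) * (s * t)) * (((g.divisors.card : ℝ) * s.divisors.card) ^ B *
          ((g.divisors.card : ℝ) * t.divisors.card) ^ B) := by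
        apply mul_le_mul_of_nonneg_left _ (by positivity)
        exact mul_le_mul b1 b2 (by positivity) (by positivity)
    _ = (g.divisors.card : ℝ) ^ (2 * B) / g * ((s.divisors.card : ℝ) ^ B / s *
        ((t.divisors.card : ℝ) ^ B / t)) := by
        rw [mul_pow, mul_pow, pow_mul', pow_two]
        field_simp

theorem sum_gcd (B N y : ℕ) (hN : 1 ≤ N) (hy : 1 ≤ y) :
    ∑ m ∈ Icc 1 N, ∑ k ∈ Icc 1 y, (Nat.gcd m k : ℝ) / ((m : ℝ) * k) *
      ((m.divisors.card : ℝ) ^ B * (k.divisors.card : ℝ) ^ B) ≤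
      (1 + Real.log N) ^ (2 ^ (2 * B)) * ((1 + Real.log N) ^ (2 ^ B) *
        (1 + Real.log y) ^ (2 ^ B)) := by
  classical
  set F : ℕ → ℝ := fun m => (m.divisors.card : ℝ) ^ B / m with hF
  set G : ℕ → ℝ := fun m => (m.divisors.card : ℝ) ^ (2 * B) / m with hG
  have hF0 : ∀ m, 0 ≤ F m := fun m => by rw [hF]; positivity
  have hG0 : ∀ m, 0 ≤ G m := fun m => by rw [hG]; positivity
  have key : ∀ j ∈ Icc 1 N ×ˢ Icc 1 y, (Nat.gcd j.1 j.2 : ℝ) / ((j.1 : ℝ) * j.2) *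
      ((j.1.divisors.card : ℝ) ^ B * (j.2.divisors.card : ℝ) ^ B) ≤
      G (Nat.gcd j.1 j.2) * (F (j.1 / Nat.gcd j.1 j.2) * F (j.2 / Nat.gcd j.1 j.2)) := by
    intro j hj
    simp only [mem_product, mem_Icc] at hj
    obtain ⟨⟨a1, _⟩, a2, _⟩ := hj
    have hg : 0 < Nat.gcd j.1 j.2 := Nat.gcd_pos_of_pos_left _ a1
    obtain ⟨s, hs⟩ := Nat.gcd_dvd_left j.1 j.2
    obtain ⟨t, ht⟩ := Nat.gcd_dvd_right j.1 j.2
    have hs' : j.1 / Nat.gcd j.1 j.2 = s := Nat.div_eq_of_eq_mul_right hg hs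
    have ht' : j.2 / Nat.gcd j.1 j.2 = t := Nat.div_eq_of_eq_mul_right hg ht
    rw [hs', ht']
    have hs0 : 0 < s := by
      rcases Nat.eq_zero_or_pos s with h | h
      · rw [h, mul_zero] at hs; omega
      · exact h
    have ht0 : 0 < t := by
      rcases Nat.eq_zero_or_pos t with h | h
      · rw [h, mul_zero] at ht; omega
      · exact h
    exact clq_term B j.1 j.2 _ s t hg hs0 ht0 hs ht
  rw [← sum_product']
  refine (sum_le_sum key).trans ?_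
  set φ : ℕ × ℕ → ℕ × (ℕ × ℕ) := fun j =>
    (Nat.gcd j.1 j.2, (j.1 / Nat.gcd j.1 j.2, j.2 / Nat.gcd j.1 j.2)) with hφ
  have hinj : Set.InjOn φ ((Icc 1 N ×ˢ Icc 1 y : Finset (ℕ × ℕ)) : Set (ℕ × ℕ)) := by
    intro j hj j' hj' he
    simp only [hφ, Prod.mk.injEq] at he
    obtain ⟨e1, e2, e3⟩ := he
    have d1 : j.1 = j.1 / Nat.gcd j.1 j.2 * Nat.gcd j.1 j.2 :=
      (Nat.div_mul_cancel (Nat.gcd_dvd_left _ _)).symm
    have d2 : j.2 = j.2 / Nat.gcd j.1 j.2 * Nat.gcd j.1 j.2 :=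
      (Nat.div_mul_cancel (Nat.gcd_dvd_right _ _)).symm
    have d1' : j'.1 = j'.1 / Nat.gcd j'.1 j'.2 * Nat.gcd j'.1 j'.2 :=
      (Nat.div_mul_cancel (Nat.gcd_dvd_left _ _)).symm
    have d2' : j'.2 = j'.2 / Nat.gcd j'.1 j'.2 * Nat.gcd j'.1 j'.2 :=
      (Nat.div_mul_cancel (Nat.gcd_dvd_right _ _)).symm
    apply Prod.ext
    · rw [d1, d1', e2, e1]
    · rw [d2, d2', e3, e1]
  have h1 : ∑ j ∈ Icc 1 N ×ˢ Icc 1 y,
      G (Nat.gcd j.1 j.2) * (F (j.1 / Nat.gcd j.1 j.2) * F (j.2 / Nat.gcd j.1 j.2)) =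
      ∑ z ∈ (Icc 1 N ×ˢ Icc 1 y).image φ, G z.1 * (F z.2.1 * F z.2.2) := by
    rw [sum_image hinj]
  rw [h1]
  have h2 : (Icc 1 N ×ˢ Icc 1 y).image φ ⊆ Icc 1 N ×ˢ (Icc 1 N ×ˢ Icc 1 y) := by
    intro z hz
    obtain ⟨j, hj, rfl⟩ := mem_image.mp hz
    simp only [mem_product, mem_Icc] at hj
    obtain ⟨⟨a1, a1'⟩, a2, a2'⟩ := hj
    have hg : 0 < Nat.gcd j.1 j.2 := Nat.gcd_pos_of_pos_left _ a1
    simp only [hφ, mem_product, mem_Icc]
    refine ⟨⟨hg, (Nat.gcd_le_left _ a1).trans a1'⟩, ⟨?_, (Nat.div_le_self _ _).trans a1'⟩, ?_,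
      (Nat.div_le_self _ _).trans a2'⟩
    · exact Nat.div_pos (Nat.gcd_le_left _ a1) hg
    · exact Nat.div_pos (Nat.gcd_le_right _ a2) hg
  refine (sum_le_sum_of_subset_of_nonneg h2 fun z _ _ =>
    mul_nonneg (hG0 _) (mul_nonneg (hF0 _) (hF0 _))).trans ?_
  have h3 : ∑ z ∈ Icc 1 N ×ˢ (Icc 1 N ×ˢ Icc 1 y), G z.1 * (F z.2.1 * F z.2.2) =
      (∑ g ∈ Icc 1 N, G g) * ((∑ s ∈ Icc 1 N, F s) * ∑ t ∈ Icc 1 y, F t) := by
    rw [sum_product, sum_mul_sum (Icc 1 N) (Icc 1 y), ← sum_product' (Icc 1 N) (Icc 1 y)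
      (fun s t => F s * F t), sum_mul_sum]
  rw [h3]
  have i1 := sum_div (2 * B) N hN
  have i2 := sum_div B N hN
  have i3 := sum_div B y hy
  have p2 : 0 ≤ ∑ s ∈ Icc 1 N, F s := sum_nonneg fun _ _ => hF0 _
  have p3 : 0 ≤ ∑ t ∈ Icc 1 y, F t := sum_nonneg fun _ _ => hF0 _
  have hlN : 0 ≤ Real.log N := Real.log_nonneg (by exact_mod_cast hN)
  have hly : 0 ≤ Real.log y := Real.log_nonneg (by exact_mod_cast hy)
  exact mul_le_mul i1 (mul_le_mul i2 i3 p3 (by positivity)) (mul_nonneg p2 p3) (by positivity)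

end

end Pool.Agent.CL
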