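import Pool.Agent.Lib_helper19.CL.Defs
import Pool.Agent.Lib_helper19.CLF.N
import Pool.Agent.Lib_helper19.CLF.O
import Pool.Agent.Lib_helper19.CLF.Q
import Pool.Agent.Lib_helper19.CLF.P1
import Pool.Agent.Lib_helper19.CLF.P2
import Pool.Agent.Lib_helper19.CLF.P3

/-!
# Block P4: the norm of the mollified vectors on the lattices
-/

set_option autoImplicit false

namespace Pool.Agent.CL

open Finset
open Pool.Agent.SGN (Wd wt UW supS subS unrm uvec nf repR repL)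
open Pool.Agent.GLQ (Lat Lz latt sp qq)
open Pool.Agent.SGB (IsB)
open Pool.Agent.BX (OF OFy VA VB cw HC)

noncomputable section

private lemma p4_supp (n N : ℕ) (V : Finset Wd) (c : ℕ → Wd → ℂ) :
    ∃ S : Finset (Lat n), ∀ L ∉ S, uvec n N V c L = 0 := by
  classical
  refine ⟨(Icc 1 N).biUnion fun m => V.biUnion fun W => (UW n (m :: W.1, W.2)).support, ?_⟩
  intro L hL
  unfold uvec
  apply Finset.sum_eq_zero
  intro m hm
  apply Finset.sum_eq_zero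
  intro W hW
  have h0 : UW n (m :: W.1, W.2) L = 0 := by
    by_contra h
    apply hL
    rw [Finset.mem_biUnion]
    refine ⟨m, hm, ?_⟩
    rw [Finset.mem_biUnion]
    exact ⟨W, hW, Finsupp.mem_support_iff.mpr h⟩
  rw [h0]; simp

private lemma p4_unrm (n N : ℕ) (V : Finset Wd) (c : ℕ → Wd → ℂ) (B : ℝ)
    (h : ∀ S : Finset (Lat n), ∑ L ∈ S, ‖uvec n N V c L‖ ^ 2 ≤ B) : unrm n N V c ≤ B := by
  obtain ⟨S, hS⟩ := p4_supp n N V c
  unfold unrm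
  rw [tsum_eq_sum (s := S)]
  · exact h S
  · intro L hL; rw [hS L hL]; simp

private lemma p4_A (n N y : ℕ) (hN : 1 ≤ N) (hy : 1 ≤ y) (ψ : ℕ → ℕ → ℂ)
    (hψ : ∀ m k, ‖ψ m k‖ ≤ 1) :
    unrm (n + 1) N (VA y) (cw ψ) ≤ (1 + Real.log N) ^ (2 ^ (2 * (n + 1) ^ 2 + 1)) *
      (1 + Real.log y) ^ (2 ^ (2 * (n + 1) ^ 2 + 1)) := by
  classical
  apply p4_unrm
  intro S
  set B : ℕ := 2 * (n + 1) ^ 2 with hB
  set J0 := Icc 1 N ×ˢ Icc 1 y with hJ0
  set x : ℕ × ℕ → Lat (n + 1) → ℂ := fun j L => ψ j.1 j.2 *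
      ((((j.1 : ℝ) * j.2) ^ (-(((n : ℝ) + 1) / 2)) : ℝ) : ℂ) *
        ((∑ l ∈ OF j.2, (-1) ^ l.length * (UW (n + 1) (j.1 :: l, []) L : ℤ) : ℤ) : ℂ) with hx
  have hJ : ∀ j ∈ J0, 1 ≤ j.1 ∧ 1 ≤ j.2 := by
    intro j hj
    rw [hJ0, Finset.mem_product, Finset.mem_Icc, Finset.mem_Icc] at hj
    exact ⟨hj.1.1, hj.2.1⟩
  have hdpos : ∀ m : ℕ, 1 ≤ m → (0 : ℝ) < (m.divisors.card : ℝ) := by
    intro m hm
    have : 0 < m.divisors.card := Finset.card_pos.mpr ⟨1, Nat.one_mem_divisors.mpr (by omega)⟩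
    exact_mod_cast this
  have hort := ortho J0 S (fun j : ℕ × ℕ => j.1 * j.2) x
    (fun j => ((j.1 * j.2).divisors.card : ℝ))
    (fun j hj => hdpos _ (Nat.mul_pos (hJ j hj).1 (hJ j hj).2)) 1
    (fun r => sum_prod r N y) (by
      intro L _ j hj j' hj' h1 h2
      refine orth_A j.1 j.2 j'.1 j'.2 (hJ j hj).1 (hJ j hj).2 (hJ j' hj').1 (hJ j' hj').2 L ?_ ?_
      · intro h; apply h1; rw [hx]; dsimp only; rw [h]; simp
      · intro h; apply h2; rw [hx]; dsimp only; rw [h]; simp)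
  have huv : ∀ L, uvec (n + 1) N (VA y) (cw ψ) L = ∑ j ∈ J0, x j L := by
    intro L; rw [uvec_A]
  simp only [huv]
  refine le_trans hort ?_
  rw [one_mul]
  calc ∑ j ∈ J0, ((j.1 * j.2).divisors.card : ℝ) * ∑ L ∈ S, ‖x j L‖ ^ 2
      ≤ ∑ j ∈ J0, ((j.1.divisors.card : ℝ) ^ (B + 1) / j.1) *
          ((j.2.divisors.card : ℝ) ^ (B + 1) / j.2) := by
        apply Finset.sum_le_sum
        intro j hj
        obtain ⟨h1, h2⟩ := hJ j hj
        have hA := term_A n j.1 j.2 h1 h2 (ψ j.1 j.2) (hψ _ _) S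
        have hd : ((j.1 * j.2).divisors.card : ℝ) ≤ (j.1.divisors.card : ℝ) * j.2.divisors.card := by
          exact_mod_cast card_div_mul j.1 j.2
        have hj1 : (0 : ℝ) < j.1 := by exact_mod_cast h1
        have hj2 : (0 : ℝ) < j.2 := by exact_mod_cast h2
        calc ((j.1 * j.2).divisors.card : ℝ) * ∑ L ∈ S, ‖x j L‖ ^ 2
            ≤ ((j.1.divisors.card : ℝ) * j.2.divisors.card) *
              (((j.1.divisors.card : ℝ) ^ B * (j.2.divisors.card : ℝ) ^ B) /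
                ((j.1 : ℝ) * j.2)) := by
              apply mul_le_mul hd hA (Finset.sum_nonneg fun L _ => by positivity) (by positivity)
          _ = _ := by
            rw [pow_succ, pow_succ]
            field_simp
    _ = (∑ m ∈ Icc 1 N, (m.divisors.card : ℝ) ^ (B + 1) / m) *
          ∑ k ∈ Icc 1 y, (k.divisors.card : ℝ) ^ (B + 1) / k := by
        rw [hJ0, Finset.sum_product, Finset.sum_mul_sum]
    _ ≤ _ := by
        apply mul_le_mul (sum_div (B + 1) N hN) (sum_div (B + 1) y hy)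
          (Finset.sum_nonneg fun k _ => by positivity)
        have : 0 ≤ Real.log N := Real.log_natCast_nonneg N
        positivity

private lemma p4_B (n N y : ℕ) (hN : 1 ≤ N) (hy : 1 ≤ y) (ψ : ℕ → ℕ → ℂ)
    (hψ : ∀ m k, ‖ψ m k‖ ≤ 1) :
    unrm (n + 1) N (VB y) (cw ψ) ≤ (1 + Real.log N) *
      ((1 + Real.log N) ^ (2 ^ (2 * (2 * (n + 1) ^ 2))) *
        ((1 + Real.log N) ^ (2 ^ (2 * (n + 1) ^ 2)) *
        (1 + Real.log y) ^ (2 ^ (2 * (n + 1) ^ 2)))) := by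
  classical
  apply p4_unrm
  intro S
  set B : ℕ := 2 * (n + 1) ^ 2 with hB
  set J0 := Icc 1 N ×ˢ Icc 1 y with hJ0
  set x : ℕ × ℕ → Lat (n + 1) → ℂ := fun j L => ψ j.1 j.2 *
      ((((j.1 : ℝ) * j.2) ^ (-(((n : ℝ) + 1) / 2)) : ℝ) : ℂ) *
        ((∑ l ∈ OF j.2, (-1) ^ l.length * (UW (n + 1) ([j.1], l) L : ℤ) : ℤ) : ℂ) with hx
  have hJ : ∀ j ∈ J0, 1 ≤ j.1 ∧ 1 ≤ j.2 := by
    intro j hj
    rw [hJ0, Finset.mem_product, Finset.mem_Icc, Finset.mem_Icc] at hj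
    exact ⟨hj.1.1, hj.2.1⟩
  have hlogN : 0 ≤ Real.log N := Real.log_natCast_nonneg N
  have hort := ortho J0 S (fun j : ℕ × ℕ => (j.1 : ℚ) / j.2) x
    (fun j => (Nat.gcd j.1 j.2 : ℝ))
    (fun j hj => by exact_mod_cast Nat.gcd_pos_of_pos_left _ (hJ j hj).1) (1 + Real.log N)
    (fun r => sum_ratio r N y hN) (by
      intro L _ j hj j' hj' h1 h2
      refine orth_B j.1 j.2 j'.1 j'.2 (hJ j hj).1 (hJ j hj).2 (hJ j' hj').1 (hJ j' hj').2 L ?_ ?_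
      · intro h; apply h1; rw [hx]; dsimp only; rw [h]; simp
      · intro h; apply h2; rw [hx]; dsimp only; rw [h]; simp)
  have huv : ∀ L, uvec (n + 1) N (VB y) (cw ψ) L = ∑ j ∈ J0, x j L := by
    intro L; rw [uvec_B]
  simp only [huv]
  refine le_trans hort ?_
  apply mul_le_mul_of_nonneg_left _ (by linarith)
  calc ∑ j ∈ J0, (Nat.gcd j.1 j.2 : ℝ) * ∑ L ∈ S, ‖x j L‖ ^ 2
      ≤ ∑ j ∈ J0, (Nat.gcd j.1 j.2 : ℝ) / ((j.1 : ℝ) * j.2) *
          ((j.1.divisors.card : ℝ) ^ B * (j.2.divisors.card : ℝ) ^ B) := by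
        apply Finset.sum_le_sum
        intro j hj
        obtain ⟨h1, h2⟩ := hJ j hj
        have hA := term_B n j.1 j.2 h1 h2 (ψ j.1 j.2) (hψ _ _) S
        calc (Nat.gcd j.1 j.2 : ℝ) * ∑ L ∈ S, ‖x j L‖ ^ 2
            ≤ (Nat.gcd j.1 j.2 : ℝ) *
              (((j.1.divisors.card : ℝ) ^ B * (j.2.divisors.card : ℝ) ^ B) /
                ((j.1 : ℝ) * j.2)) := mul_le_mul_of_nonneg_left hA (by positivity)
          _ = _ := by ring
    _ = ∑ m ∈ Icc 1 N, ∑ k ∈ Icc 1 y, (Nat.gcd m k : ℝ) / ((m : ℝ) * k) *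
          ((m.divisors.card : ℝ) ^ B * (k.divisors.card : ℝ) ^ B) := by
        rw [hJ0, Finset.sum_product]
    _ ≤ _ := sum_gcd B N y hN hy

/-- P4 -/
theorem hc (n : ℕ) (hn : 1 ≤ n) : HC n := by
  obtain ⟨n, rfl⟩ : ∃ m, n = m + 1 := ⟨n - 1, by omega⟩
  set B : ℕ := 2 * (n + 1) ^ 2 with hB
  set E1 : ℕ := 2 ^ (B + 1) + 2 ^ (B + 1) with hE1
  set E2 : ℕ := 1 + (2 ^ (2 * B) + (2 ^ B + 2 ^ B)) with hE2
  refine ⟨3 ^ (E1 + E2), ((E1 + E2 : ℕ) : ℝ), by positivity, by positivity, ?_⟩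
  intro N y hN hy ψ hψ
  have hN' : (2 : ℝ) ≤ N := by exact_mod_cast hN
  have hy' : (1 : ℝ) ≤ y := by exact_mod_cast hy
  have hl2 : (1 / 2 : ℝ) ≤ Real.log 2 := by linarith [Real.log_two_gt_d9]
  have hlN : 1 / 2 ≤ Real.log N := le_trans hl2 (Real.log_le_log (by norm_num) hN')
  have hly : 0 ≤ Real.log y := Real.log_nonneg hy'
  set ℓ := Real.log N + Real.log y with hℓ
  have h1 : 1 + Real.log N ≤ 3 * ℓ := by rw [hℓ]; linarith
  have h2 : 1 + Real.log y ≤ 3 * ℓ := by rw [hℓ]; linarith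
  have h3 : 1 ≤ 3 * ℓ := by linarith
  have hN0 : 0 ≤ 1 + Real.log N := by linarith
  have hy0 : 0 ≤ 1 + Real.log y := by linarith
  have hR : (3 : ℝ) ^ (E1 + E2) * ℓ ^ ((E1 + E2 : ℕ) : ℝ) = (3 * ℓ) ^ (E1 + E2) := by
    rw [Real.rpow_natCast, mul_pow]
  rw [hR]
  constructor
  · refine le_trans (p4_A n N y (by omega) hy ψ hψ) ?_
    calc (1 + Real.log N) ^ (2 ^ (2 * (n + 1) ^ 2 + 1)) *
          (1 + Real.log y) ^ (2 ^ (2 * (n + 1) ^ 2 + 1))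
        ≤ (3 * ℓ) ^ (2 ^ (B + 1)) * (3 * ℓ) ^ (2 ^ (B + 1)) := by
          apply mul_le_mul (pow_le_pow_left₀ hN0 h1 _) (pow_le_pow_left₀ hy0 h2 _)
            (by positivity) (by positivity)
      _ = (3 * ℓ) ^ E1 := by rw [← pow_add]
      _ ≤ _ := pow_le_pow_right₀ h3 (Nat.le_add_right _ _)
  · refine le_trans (p4_B n N y (by omega) hy ψ hψ) ?_
    calc (1 + Real.log N) * ((1 + Real.log N) ^ (2 ^ (2 * (2 * (n + 1) ^ 2))) *
          ((1 + Real.log N) ^ (2 ^ (2 * (n + 1) ^ 2)) *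
            (1 + Real.log y) ^ (2 ^ (2 * (n + 1) ^ 2))))
        ≤ (3 * ℓ) * ((3 * ℓ) ^ (2 ^ (2 * B)) * ((3 * ℓ) ^ (2 ^ B) * (3 * ℓ) ^ (2 ^ B))) := by
          apply mul_le_mul h1 _ (by positivity) (by positivity)
          apply mul_le_mul (pow_le_pow_left₀ hN0 h1 _) _ (by positivity) (by positivity)
          exact mul_le_mul (pow_le_pow_left₀ hN0 h1 _) (pow_le_pow_left₀ hy0 h2 _)
            (by positivity) (by positivity)
      _ = (3 * ℓ) ^ E2 := by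
          rw [hE2, pow_add (3 * ℓ) 1, pow_add (3 * ℓ) (2 ^ (2 * B)), pow_add (3 * ℓ) (2 ^ B), pow_one]
      _ ≤ _ := pow_le_pow_right₀ h3 (Nat.le_add_left _ _)


end

end Pool.Agent.CL
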